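import Pool.Agent.C4g.Odd

/-!
# Even order, and the bound for all orders, all polarities and all sets of labels
-/

namespace Pool.Agent.C4g

open Finset

variable {X Z : Type} [AddCommGroup X] [Fintype X] [AddCommGroup Z] [Fintype Z]

open Classical in
private theorem half {V : Type} (G : SimpleGraph V) (U : Finset V) (s : V → ℂ)
    (h1 : ∀ u ∈ U, s u = 1 ∨ s u = -1) (h2 : ∀ u ∈ U, ∀ v ∈ U, G.Adj u v → s u * s v = -1) :
    ∃ I : Finset V, G.IsIndepSet (I : Set V) ∧ U.card ≤ 2 * I.card := by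
  have hc := Finset.card_filter_add_card_filter_not (s := U) (fun u => s u = 1)
  have hP : G.IsIndepSet ((U.filter fun u => s u = 1 : Finset V) : Set V) := by
    intro u hu v hv _ hadj
    rw [Finset.mem_coe, Finset.mem_filter] at hu hv
    have := h2 u hu.1 v hv.1 hadj
    rw [hu.2, hv.2] at this
    norm_num at this
  have hN : G.IsIndepSet ((U.filter fun u => ¬ s u = 1 : Finset V) : Set V) := by
    intro u hu v hv _ hadj
    rw [Finset.mem_coe, Finset.mem_filter] at hu hv
    have := h2 u hu.1 v hv.1 hadj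
    rw [(h1 u hu.1).resolve_left hu.2, (h1 v hv.1).resolve_left hv.2] at this
    norm_num at this
  by_cases h : U.card ≤ 2 * (U.filter fun u => s u = 1).card
  · exact ⟨_, hP, h⟩
  · exact ⟨_, hN, by omega⟩

open Classical in
/-- Exponent 2, a character with the value `-1` at `r ≠ 0`. -/
private theorem exists_neg (h2 : ∀ x : X, 2 • x = 0) {r : X} (hr : r ≠ 0) : ∃ ψ : AddChar X ℂ, ψ r = -1 := by
  obtain ⟨ψ, hψ⟩ := (AddChar.exists_apply_ne_zero (a := r)).2 hr
  have h3 : ψ r * ψ r = 1 := by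
    rw [← AddChar.map_add_eq_mul, ← two_nsmul, h2, AddChar.map_zero_eq_one]
  exact ⟨ψ, (mul_self_eq_one_iff.1 h3).resolve_left hψ⟩

open Classical in
/-- Exponent 2, the vertices with `b(x, x)` in the image of `1 + σ`: for one of at most `√q` values of
`t = z + σ z + b(x, x)` the edges in the class of `t` form a matching. -/
theorem evenA (σ : X →+ X) (hσ : ∀ x, σ (σ x) = x) (b : X →+ X →+ X) (hb : ∀ x y, b x y = 0 → x = 0 ∨ y = 0)
    (h2 : ∀ x : X, 2 • x = 0) {V : Type} (G : SimpleGraph V) (x z : V → X)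
    (hinj : Function.Injective fun v => (x v, z v)) (hG : ∀ u v, G.Adj u v → z u + σ (z v) = b (x u) (x v))
    (U : Finset V) (hU : ∀ u ∈ U, b (x u) (x u) ∈ (AddMonoidHom.id X + σ).range) :
    ∃ I : Finset V, G.IsIndepSet (I : Set V) ∧
      U.card ≤ 2 * (Nat.card (AddMonoidHom.id X + σ).range * I.card) := by
  have hself : ∀ a : X, a + a = 0 := fun a => by rw [← two_nsmul]; exact h2 a
  set f := AddMonoidHom.id X + σ with hf
  have hfa : ∀ a, f a = a + σ a := fun a => rfl
  set t : V → X := fun u => z u + σ (z u) + b (x u) (x u) with ht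
  have htR : ∀ u ∈ U, t u ∈ f.range := fun u hu => f.range.add_mem ⟨z u, rfl⟩ (hU u hu)
  obtain ⟨r, hr⟩ : ∃ r : X, U.card ≤ Nat.card f.range * (U.filter fun u => t u = r).card := by
    by_contra hcon
    push Not at hcon
    have hcR : Nat.card f.range = (univ.filter (fun y => y ∈ f.range)).card := by
      rw [Nat.card_eq_fintype_card, Fintype.card_subtype]
    have h3 : U.card = ∑ r ∈ univ.filter (fun y => y ∈ f.range), (U.filter fun u => t u = r).card :=
      Finset.card_eq_sum_card_fiberwise (fun u hu => mem_coe.2 (mem_filter.2 ⟨mem_univ _, htR u hu⟩))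
    have h4 : ∑ r ∈ univ.filter (fun y => y ∈ f.range), Nat.card f.range * (U.filter fun u => t u = r).card <
        ∑ _r ∈ univ.filter (fun y => y ∈ f.range), U.card :=
      Finset.sum_lt_sum_of_nonempty ⟨0, mem_filter.2 ⟨mem_univ _, zero_mem _⟩⟩ fun r _ => hcon r
    rw [← Finset.mul_sum, ← h3, Finset.sum_const, smul_eq_mul, ← hcR] at h4
    exact lt_irrefl _ h4
  have hadj : ∀ u v, t u = r → t v = r → G.Adj u v → x u = x v ∧ z v = z u + r := by
    intro u v hu hv huv
    have e1 := hG u v huv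
    have e2 := hG v u huv.symm
    have e3 : b (x u - x v) (x u - x v) = 0 := by
      have e4 : b (x u - x v) (x u - x v) = t u - t v + (2 • (b (x v) (x v)) - 2 • z u - 2 • σ (z u)) := by
        rw [map_sub b, AddMonoidHom.sub_apply, map_sub, map_sub, ← e1, ← e2, ht]
        simp only
        abel
      rw [e4, hu, hv, h2, h2, h2]
      abel
    have e4 : x u = x v := by
      rcases hb _ _ e3 with h | h <;> exact sub_eq_zero.1 h
    refine ⟨e4, ?_⟩
    have e5 : σ r = r := by
      rw [← hu, ht]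
      simp only
      rw [map_add, map_add, hσ, add_comm (σ (z u))]
      congr 1
      have e6 : t u ∈ f.range ∨ True := Or.inr trivial
      have e7 := hG u v huv
      rw [← e4] at e7
      have e8 := hG v u huv.symm
      rw [← e4] at e8
      rw [← e7, map_add, hσ, add_comm, e8, ← e7]
    have e6 : σ (z v) = σ (z u) + r := by
      rw [← e4] at e1
      have e7 : z u + σ (z v) = z u + (σ (z u) + r) := by
        rw [e1, ← hu, ht]
        simp only
        have e8 : z u + (σ (z u) + (z u + σ (z u) + b (x u) (x u))) =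
            b (x u) (x u) + 2 • z u + 2 • σ (z u) := by abel
        rw [e8, h2, h2, add_zero, add_zero]
      exact add_left_cancel e7
    rw [← hσ (z v), e6, map_add, hσ, e5]
  by_cases hr0 : r = 0
  · refine ⟨U.filter fun u => t u = r, ?_, ?_⟩
    · intro u hu v hv huv hadj'
      obtain ⟨e1, e2⟩ := hadj u v (Finset.mem_filter.1 (Finset.mem_coe.1 hu)).2
        (Finset.mem_filter.1 (Finset.mem_coe.1 hv)).2 hadj'
      rw [hr0, add_zero] at e2
      exact huv (hinj (Prod.ext e1 e2.symm))
    · omega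
  · obtain ⟨ψ, hψ⟩ := exists_neg h2 hr0
    have hsq : ∀ a, ψ a * ψ a = 1 := fun a => by
      rw [← AddChar.map_add_eq_mul, hself, AddChar.map_zero_eq_one]
    obtain ⟨I, hI, hc⟩ := half G (U.filter fun u => t u = r) (fun u => ψ (z u))
      (fun u _ => mul_self_eq_one_iff.1 (hsq _)) (fun u hu v hv huv => by
        obtain ⟨-, e2⟩ := hadj u v (Finset.mem_filter.1 hu).2 (Finset.mem_filter.1 hv).2 huv
        rw [e2, AddChar.map_add_eq_mul, hψ, ← mul_assoc, hsq, one_mul])
    refine ⟨I, hI, hr.trans ?_⟩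
    calc Nat.card f.range * (U.filter fun u => t u = r).card ≤ Nat.card f.range * (2 * I.card) :=
          Nat.mul_le_mul_left _ hc
      _ = 2 * (Nat.card f.range * I.card) := by ring

open Classical in
/-- Exponent 2, arbitrary labels. -/
theorem evenV (σ : X →+ X) (hσ : ∀ x, σ (σ x) = x) (b : X →+ X →+ X) (hs : ∀ x y, b y x = σ (b x y))
    (hb : ∀ x y, b x y = 0 → x = 0 ∨ y = 0) (h2 : ∀ x : X, 2 • x = 0) {V : Type} [Fintype V] (G : SimpleGraph V)
    (x z : V → X) (hinj : Function.Injective fun v => (x v, z v))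
    (hG : ∀ u v, G.Adj u v → z u + σ (z v) = b (x u) (x v)) :
    ∃ I : Finset V, G.IsIndepSet (I : Set V) ∧
      (Fintype.card V : ℝ) ≤ 10 * Real.sqrt (Fintype.card X) * I.card := by
  have hself : ∀ a : X, a + a = 0 := fun a => by rw [← two_nsmul]; exact h2 a
  have hq0 : (1 : ℝ) ≤ Fintype.card X := by exact_mod_cast (Fintype.card_pos : 0 < Fintype.card X)
  have hs1 : (1 : ℝ) ≤ Real.sqrt (Fintype.card X) := by
    rw [Real.one_le_sqrt]
    exact hq0
  set s := Real.sqrt (Fintype.card X) with hsdef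
  set f := AddMonoidHom.id X + σ with hf
  have hfa : ∀ a, f a = a + σ a := fun a => rfl
  have hff : ∀ a, f (f a) = 0 := by
    intro a
    rw [hfa, hfa, map_add, hσ, add_comm (σ a) a, hself]
  set R := f.range with hR
  have hr : (Nat.card R : ℝ) ≤ s := by
    have h1 := fibre f (zero_mem f.range)
    have h3 : Nat.card R ≤ (univ.filter fun z => f z = 0).card := by
      rw [Nat.card_eq_fintype_card, Fintype.card_subtype]
      refine Finset.card_le_card fun y hy => ?_
      obtain ⟨a, rfl⟩ := (Finset.mem_filter.1 hy).2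
      exact Finset.mem_filter.2 ⟨mem_univ _, hff a⟩
    have h4 : Nat.card R * Nat.card R ≤ Fintype.card X := by
      rw [← h1]
      exact Nat.mul_le_mul_right _ h3
    rw [hsdef]
    apply Real.le_sqrt_of_sq_le
    rw [pow_two]
    exact_mod_cast h4
  set U1 : Finset V := univ.filter fun u => b (x u) (x u) ∈ R with hU1
  set U2 : Finset V := univ.filter fun u => ¬ b (x u) (x u) ∈ R with hU2
  have hcard : U1.card + U2.card = Fintype.card V := by
    rw [hU1, hU2, Finset.card_filter_add_card_filter_not, Finset.card_univ]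
  obtain ⟨I1, hI1, hc1⟩ := evenA σ hσ b hb h2 G x z hinj hG U1 (fun u hu => (Finset.mem_filter.1 hu).2)
  have hc1' : (U1.card : ℝ) ≤ 2 * (s * I1.card) := by
    have h3 : (U1.card : ℝ) ≤ 2 * ((Nat.card R : ℝ) * I1.card) := by exact_mod_cast hc1
    have h4 : (Nat.card R : ℝ) * I1.card ≤ s * I1.card := mul_le_mul_of_nonneg_right hr (Nat.cast_nonneg _)
    linarith
  obtain ⟨I2, hI2, hc2⟩ : ∃ I : Finset V, G.IsIndepSet (I : Set V) ∧ (U2.card : ℝ) ≤ 8 * (s * I.card) := by
    have : Fintype (X ⧸ R) := Fintype.ofFinite _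
    let π : X →+ X ⧸ R := QuotientAddGroup.mk' R
    have hπ0 : ∀ a, π a = 0 ↔ a ∈ R := fun a => QuotientAddGroup.eq_zero_iff a
    have hπσ : ∀ a, π (σ a) = π a := by
      intro a
      have h3 : π (σ a - a) = 0 := by
        rw [hπ0]
        refine ⟨a, ?_⟩
        rw [hfa]
        have h4 : a = -a := eq_neg_of_add_eq_zero_left (hself a)
        rw [sub_eq_add_neg, ← h4, add_comm]
      rw [map_sub] at h3
      exact sub_eq_zero.1 h3
    have h2' : ∀ y : X ⧸ R, 2 • y = 0 := by
      intro y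
      obtain ⟨a, rfl⟩ := QuotientAddGroup.mk'_surjective R y
      rw [← map_nsmul, h2, map_zero]
    have hpm : ∀ (ψ : AddChar (X ⧸ R) ℂ) (a : X ⧸ R), ψ a = 1 ∨ ψ a = -1 := fun ψ a =>
      mul_self_eq_one_iff.1 (by rw [← AddChar.map_add_eq_mul, ← two_nsmul, h2', AddChar.map_zero_eq_one])
    obtain ⟨ψ, hψ⟩ := twoB_pick U2 (fun u => π (b (x u) (x u))) (fun u hu h0 => by
      exact (Finset.mem_filter.1 hu).2 ((hπ0 _).1 h0)) hpm
    let b' : X →+ X →+ X ⧸ R := (AddMonoidHom.compHom π).comp b
    have hb' : ∀ x y, b' x y = π (b x y) := fun x y => rfl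
    have hs' : ∀ x y, b' x y = b' y x := by
      intro x y
      rw [hb', hb', hs x y, hπσ]
    obtain ⟨I, -, hI1, hI2⟩ := twoV b' hs' h2 h2' ψ G x (fun u => π (z u)) (by
      intro u v huv
      rw [hb', ← hG u v huv, map_add, hπσ]) (U2.filter fun u => ψ (π (b (x u) (x u))) = -1) (by
      intro u hu
      exact (Finset.mem_filter.1 hu).2)
    refine ⟨I, hI1, ?_⟩
    have h3 : (U2.card : ℝ) ≤ 2 * ((U2.filter fun u => ψ (π (b (x u) (x u))) = -1).card : ℝ) := by
      exact_mod_cast hψ
    rw [← hsdef] at hI2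
    linarith
  have h6 : (Fintype.card V : ℝ) = U1.card + U2.card := by exact_mod_cast hcard.symm
  have hs0 : 0 ≤ s := by linarith
  rcases le_total I1.card I2.card with hle | hle
  · refine ⟨I2, hI2, ?_⟩
    have h7 : s * (I1.card : ℝ) ≤ s * (I2.card : ℝ) := mul_le_mul_of_nonneg_left (Nat.cast_le.2 hle) hs0
    rw [h6]
    linarith
  · refine ⟨I1, hI1, ?_⟩
    have h7 : s * (I2.card : ℝ) ≤ s * (I1.card : ℝ) := mul_le_mul_of_nonneg_left (Nat.cast_le.2 hle) hs0
    rw [h6]
    linarith

open Classical in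
/-- The bound for all orders, all polarities and all sets of labels. -/
theorem allV (σ : X →+ X) (hσ : ∀ x, σ (σ x) = x) (b : X →+ X →+ X) (hs : ∀ x y, b y x = σ (b x y))
    (hb : ∀ x y, b x y = 0 → x = 0 ∨ y = 0) {V : Type} [Fintype V] (G : SimpleGraph V) (x z : V → X)
    (hinj : Function.Injective fun v => (x v, z v)) (hG : ∀ u v, G.Adj u v → z u + σ (z v) = b (x u) (x v)) :
    ∃ I : Finset V, G.IsIndepSet (I : Set V) ∧
      (Fintype.card V : ℝ) / (2100 * Real.sqrt (Fintype.card X)) ≤ I.card := by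
  have hq0 : (1 : ℝ) ≤ Fintype.card X := by exact_mod_cast (Fintype.card_pos : 0 < Fintype.card X)
  have hs1 : (1 : ℝ) ≤ Real.sqrt (Fintype.card X) := by
    rw [Real.one_le_sqrt]
    exact hq0
  rcases subsingleton_or_nontrivial X with hX | hX
  · refine ⟨univ, fun u _ v _ huv => absurd (hinj (Subsingleton.elim _ _)) huv, ?_⟩
    have h1 : Fintype.card X = 1 := Fintype.card_eq_one_iff.2 ⟨0, fun y => Subsingleton.elim _ _⟩
    rw [h1, Finset.card_univ]
    simp only [Nat.cast_one, Real.sqrt_one, mul_one]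
    apply div_le_self (Nat.cast_nonneg _)
    norm_num
  · have : Fintype (fix σ) := Fintype.ofFinite _
    rcases mkDat σ hσ b hs hb with h2 | ⟨D, π, hπb, hπσ, -, -, hπF⟩
    · obtain ⟨I, hI, hc⟩ := evenV σ hσ b hs hb h2 G x z hinj hG
      refine ⟨I, hI, ?_⟩
      rw [div_le_iff₀ (by positivity)]
      have h3 : (0 : ℝ) ≤ Real.sqrt (Fintype.card X) * I.card :=
        mul_nonneg (Real.sqrt_nonneg _) (Nat.cast_nonneg _)
      calc (Fintype.card V : ℝ) ≤ 10 * Real.sqrt (Fintype.card X) * I.card := hc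
        _ = 10 * (Real.sqrt (Fintype.card X) * I.card) := by ring
        _ ≤ 2100 * (Real.sqrt (Fintype.card X) * I.card) := mul_le_mul_of_nonneg_right (by norm_num) h3
        _ = I.card * (2100 * Real.sqrt (Fintype.card X)) := by ring
    · obtain ⟨I, hI, hc⟩ := D.oddV σ hσ b hb π hπb hπσ hπF G x z hinj hG
      refine ⟨I, hI, ?_⟩
      rw [div_le_iff₀ (by positivity), mul_comm]
      exact hc

end Pool.Agent.C4g
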