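import Mathlib

/-!
# Symmetric biadditive maps `X × X → Z` with surjective sections, odd exponent: notation

Problem MP_782628_co.
-/

namespace Pool.Agent.C4g

open Finset

/-- Finite abelian groups `X`, `Z` of exponent `p` (an odd prime), a symmetric biadditive map `b : X × X → Z` such that
`b x` is onto for `x ≠ 0`, and `F x = b x x / 2`, with `F x = 0` only for `x = 0`. -/
structure Dat (X Z : Type) [AddCommGroup X] [Fintype X] [AddCommGroup Z] [Fintype Z] where
  p : ℕ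
  hp : p.Prime
  hodd : p ≠ 2
  m : ℕ
  card_eq : Fintype.card X = p ^ m
  exp : ∀ x : X, p • x = 0
  expZ : ∀ z : Z, p • z = 0
  b : X →+ X →+ Z
  symm : ∀ x y, b x y = b y x
  surj : ∀ x, x ≠ 0 → Function.Surjective (b x)
  F : X → Z
  F_add : ∀ x y, F (x + y) = F x + F y + b x y
  F_nsmul : ∀ (n : ℕ) x, F (n • x) = (n ^ 2) • F x
  two_F : ∀ x, 2 • F x = b x x
  F_zero : ∀ x, F x = 0 → x = 0

variable {X Z : Type} [AddCommGroup X] [Fintype X] [AddCommGroup Z] [Fintype Z]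

/-- The exponential sum of the quadratic form `ψ ∘ F`. -/
noncomputable def Dat.S (D : Dat X Z) (ψ : AddChar Z ℂ) : ℂ := ∑ x : X, ψ (D.F x)

/-- `W` is totally isotropic for `ψ ∘ b`. -/
def Dat.Iso (D : Dat X Z) (ψ : AddChar Z ℂ) (W : AddSubgroup X) : Prop := ∀ w ∈ W, ∀ w' ∈ W, ψ (D.b w w') = 1

/-- `W` is a maximal totally isotropic subgroup. -/
def Dat.MaxIso (D : Dat X Z) (ψ : AddChar Z ℂ) (W : AddSubgroup X) : Prop :=
  D.Iso ψ W ∧ ∀ W' : AddSubgroup X, W ≤ W' → D.Iso ψ W' → W' = W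

/-- The orthogonal of `W`. -/
def Dat.perp (D : Dat X Z) (ψ : AddChar Z ℂ) (W : AddSubgroup X) : AddSubgroup X where
  carrier := {x | ∀ w ∈ W, ψ (D.b w x) = 1}
  zero_mem' := by
    intro w _
    simp
  add_mem' := by
    intro a c ha hc w hw
    rw [map_add, AddChar.map_add_eq_mul, ha w hw, hc w hw, one_mul]
  neg_mem' := by
    intro a ha w hw
    rw [map_neg, AddChar.map_neg_eq_inv, ha w hw, inv_one]

/-- `ψ` is good: there is a set of about `sqrt q` elements, no difference of which has `Re ψ(F(.)) < 0`. -/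
def Dat.Good (D : Dat X Z) (ψ : AddChar Z ℂ) : Prop :=
  ∃ A : Finset X, (Fintype.card X : ℝ) ≤ 4 * (A.card : ℝ) ^ 2 ∧ ∀ a ∈ A, ∀ a' ∈ A, 0 ≤ (ψ (D.F (a - a'))).re

/-- the primitive additive character of `ZMod p` (value `exp(2 pi i a/p)`) -/
noncomputable def ee (p : ℕ) [NeZero p] (a : ZMod p) : ℂ := ZMod.stdAddChar a

/-- quadratic Gauss sum -/
noncomputable def gs (p : ℕ) [NeZero p] : ℂ := ∑ n : ZMod p, ee p (n ^ 2)

end Pool.Agent.C4g
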