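import Mathlib

/-!
# Sets of about `sqrt p` residues `t` with `a (t - t') ^ 2` small modulo `p`

For every `a ≠ 0` modulo an odd prime `p` there is a set `T` of residues, `p ≤ 256 |T|^2`, such that `a (t - t')^2` is
congruent to an integer of absolute value at most `p / 8` for all `t, t' ∈ T`. If `a` is a square (or `-a`), `T` is
a multiple of an interval. If `a` is not a square and `p = 1 mod 4`, Dirichlet's theorem gives a prime `l = 3 mod 4`,
`l = a mod p`; then `-p` is a square modulo `l`, and `l (Y^2 + p J^2)` with `Y = B J mod l` gives what we want.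
-/

namespace Pool.Agent.C4g

open Finset

theorem exists_ell (p : ℕ) [Fact p.Prime] (hp4 : p % 4 = 1) (a : ZMod p) (ha : a ≠ 0) (hsq : ¬ IsSquare a) :
    ∃ (l : ℕ) (B : ℤ), 0 < l ∧ (l : ZMod p) = a ∧ (l : ℤ) ∣ B ^ 2 + p := by
  have hp : p.Prime := Fact.out
  have hcop : Nat.Coprime 4 p :=
    Nat.Coprime.pow_left 2 (Nat.coprime_two_left.2 (Nat.odd_iff.2 (by omega)))
  have : NeZero (4 * p) := ⟨by have := hp.pos; omega⟩
  have hu : IsUnit ((ZMod.chineseRemainder hcop).symm (3, a)) := by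
    apply IsUnit.map
    rw [Prod.isUnit_iff]
    refine ⟨?_, ha.isUnit⟩
    show IsUnit (3 : ZMod 4)
    decide
  obtain ⟨l, -, hlp, hlu⟩ := Nat.forall_exists_prime_gt_and_eq_mod hu 0
  have h1 : ((l : ZMod 4 × ZMod p)) = (3, a) := by
    have h2 := congrArg (ZMod.chineseRemainder hcop) hlu
    rwa [RingEquiv.apply_symm_apply, map_natCast] at h2
  have h4 : (l : ZMod 4) = 3 := by
    have := congrArg Prod.fst h1
    simpa using this
  have hla : (l : ZMod p) = a := by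
    have := congrArg Prod.snd h1
    simpa using this
  have h43 : l % 4 = 3 := by
    have := (ZMod.natCast_eq_natCast_iff' l 3 4).1 (by exact_mod_cast h4)
    omega
  have : Fact l.Prime := ⟨hlp⟩
  have hl2 : l ≠ 2 := by
    rintro rfl
    omega
  have hn1 : ¬ IsSquare (p : ZMod l) := by
    intro h
    apply hsq
    rw [← hla]
    exact (ZMod.exists_sq_eq_prime_iff_of_mod_four_eq_one hp4 hl2).2 h
  have hn2 : ¬ IsSquare (-1 : ZMod l) := by
    intro h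
    exact (ZMod.exists_sq_eq_neg_one_iff.1 h) h43
  have hp0 : (p : ZMod l) ≠ 0 := by
    intro h
    apply hn1
    rw [h]
    exact ⟨0, by ring⟩
  have hs : IsSquare (-(p : ZMod l)) := by
    have h5 : quadraticChar (ZMod l) (p : ZMod l) = -1 := quadraticChar_neg_one_iff_not_isSquare.2 hn1
    have h6 : quadraticChar (ZMod l) (-1 : ZMod l) = -1 := quadraticChar_neg_one_iff_not_isSquare.2 hn2
    have h7 : quadraticChar (ZMod l) (-(p : ZMod l)) = 1 := by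
      rw [neg_eq_neg_one_mul, map_mul, h5, h6]
      norm_num
    exact (quadraticChar_one_iff_isSquare (neg_ne_zero.2 hp0)).1 h7
  obtain ⟨y, hy⟩ := hs
  refine ⟨l, (y.val : ℤ), hlp.pos, hla, ?_⟩
  rw [← ZMod.intCast_zmod_eq_zero_iff_dvd]
  push_cast
  rw [ZMod.natCast_zmod_val, pow_two, ← hy]
  ring

private theorem exists_rt (n : ℕ) {k : ℕ} (hk : 0 < k) : ∃ r : ℕ, k * r ^ 2 ≤ n ∧ n < k * (r + 1) ^ 2 := by
  refine ⟨Nat.sqrt (n / k), ?_, ?_⟩
  · have h1 := Nat.sqrt_le' (n / k)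
    calc k * Nat.sqrt (n / k) ^ 2 ≤ k * (n / k) := Nat.mul_le_mul_left _ h1
      _ ≤ n := Nat.mul_div_le n k
  · have h1 : n / k < (Nat.sqrt (n / k) + 1) ^ 2 := Nat.lt_succ_sqrt' (n / k)
    rw [mul_comm]
    exact (Nat.div_lt_iff_lt_mul hk).1 h1

open Classical in
theorem setT_N (p : ℕ) [Fact p.Prime] (hp4 : p % 4 = 1) (a : ZMod p) (ha : a ≠ 0) (hsq : ¬ IsSquare a) :
    ∃ T : Finset (ZMod p), p ≤ 256 * T.card ^ 2 ∧ ∀ t ∈ T, ∀ t' ∈ T, ∃ K : ℤ, 8 * |K| ≤ p ∧ a * (t - t') ^ 2 = K := by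
  have hp : p.Prime := Fact.out
  obtain ⟨l, B, hl, hla, hB⟩ := exists_ell p hp4 a ha hsq
  obtain ⟨M, hM1, hM2⟩ := exists_rt (p * l) (k := 16) (by norm_num)
  obtain ⟨J, hJ1, hJ2⟩ := exists_rt l (k := 16) (by norm_num)
  have : NeZero l := ⟨hl.ne'⟩
  set S : Finset (ℕ × ℕ) := range (M + 1) ×ˢ range (J + 1) with hS
  set f : ℕ × ℕ → ZMod l := fun u => (u.1 : ZMod l) - (B : ZMod l) * u.2 with hf
  obtain ⟨c, hc⟩ : ∃ c, S.card ≤ l * (S.filter fun u => f u = c).card := by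
    by_contra hcon
    push Not at hcon
    have h1 : S.card = ∑ c : ZMod l, (S.filter fun u => f u = c).card :=
      Finset.card_eq_sum_card_fiberwise (fun x _ => mem_univ _)
    have h2 : ∑ c : ZMod l, l * (S.filter fun u => f u = c).card < ∑ _c : ZMod l, S.card :=
      sum_lt_sum_of_nonempty ⟨0, mem_univ _⟩ fun c _ => hcon c
    rw [← mul_sum, ← h1, sum_const, card_univ, ZMod.card, smul_eq_mul] at h2
    exact lt_irrefl _ h2
  set Y := S.filter fun u => f u = c with hY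
  have hYm : ∀ u ∈ Y, u.1 ≤ M ∧ u.2 ≤ J ∧ f u = c := by
    intro u hu
    rw [hY, mem_filter, hS, mem_product, mem_range, mem_range] at hu
    exact ⟨by omega, by omega, hu.2⟩
  have hlZ : (0 : ℤ) < l := by exact_mod_cast hl
  have hpZ : (0 : ℤ) < p := by exact_mod_cast hp.pos
  have key : ∀ u ∈ Y, ∀ v ∈ Y, ∃ K : ℤ, 0 ≤ K ∧ 8 * K ≤ p ∧
      (l : ℤ) * K = ((u.1 : ℤ) - v.1) ^ 2 + p * ((u.2 : ℤ) - v.2) ^ 2 := by
    intro u hu v hv
    obtain ⟨u1, u2, u3⟩ := hYm u hu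
    obtain ⟨v1, v2, v3⟩ := hYm v hv
    have e1 : f u = f v := u3.trans v3.symm
    have e2 : (l : ℤ) ∣ ((u.1 : ℤ) - v.1) - B * ((u.2 : ℤ) - v.2) := by
      rw [← ZMod.intCast_zmod_eq_zero_iff_dvd]
      push_cast
      rw [hf] at e1
      linear_combination e1
    have e3 : (l : ℤ) ∣ ((u.1 : ℤ) - v.1) ^ 2 + p * ((u.2 : ℤ) - v.2) ^ 2 := by
      have e4 : ((u.1 : ℤ) - v.1) ^ 2 + p * ((u.2 : ℤ) - v.2) ^ 2 =
          (((u.1 : ℤ) - v.1) - B * ((u.2 : ℤ) - v.2)) * (((u.1 : ℤ) - v.1) + B * ((u.2 : ℤ) - v.2)) +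
            (B ^ 2 + p) * ((u.2 : ℤ) - v.2) ^ 2 := by ring
      rw [e4]
      exact dvd_add (Dvd.dvd.mul_right e2 _) (Dvd.dvd.mul_right hB _)
    obtain ⟨K, hK⟩ := e3
    have b1 : ((u.1 : ℤ) - v.1) ^ 2 ≤ (M : ℤ) ^ 2 := sq_le_sq' (by omega) (by omega)
    have b2 : ((u.2 : ℤ) - v.2) ^ 2 ≤ (J : ℤ) ^ 2 := sq_le_sq' (by omega) (by omega)
    have b3 : 16 * (M : ℤ) ^ 2 ≤ p * l := by exact_mod_cast hM1
    have b4 : 16 * (J : ℤ) ^ 2 ≤ l := by exact_mod_cast hJ1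
    have b5 : (p : ℤ) * ((u.2 : ℤ) - v.2) ^ 2 ≤ p * J ^ 2 := mul_le_mul_of_nonneg_left b2 hpZ.le
    have b6 : (p : ℤ) * (16 * (J : ℤ) ^ 2) ≤ p * l := mul_le_mul_of_nonneg_left b4 hpZ.le
    have b7 : 0 ≤ (p : ℤ) * ((u.2 : ℤ) - v.2) ^ 2 := mul_nonneg hpZ.le (sq_nonneg _)
    refine ⟨K, ?_, ?_, hK.symm⟩
    · have h1 : 0 ≤ (l : ℤ) * K := by
        rw [← hK]
        positivity
      exact nonneg_of_mul_nonneg_right h1 hlZ
    · have h1 : (l : ℤ) * (8 * K) ≤ l * p := by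
        have h2 : (l : ℤ) * (8 * K) = 8 * (((u.1 : ℤ) - v.1) ^ 2 + p * ((u.2 : ℤ) - v.2) ^ 2) := by
          rw [hK]
          ring
        rw [h2]
        linarith
      exact le_of_mul_le_mul_left h1 hlZ
  have hval : ∀ u ∈ Y, ∀ v ∈ Y, ∃ K : ℤ, 0 ≤ K ∧ 8 * K ≤ p ∧
      (l : ℤ) * K = ((u.1 : ℤ) - v.1) ^ 2 + p * ((u.2 : ℤ) - v.2) ^ 2 ∧
      a * (K : ZMod p) = ((u.1 : ZMod p) - v.1) ^ 2 := by
    intro u hu v hv
    obtain ⟨K, k1, k2, k3⟩ := key u hu v hv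
    refine ⟨K, k1, k2, k3, ?_⟩
    have h1 := congrArg (fun n : ℤ => (n : ZMod p)) k3
    push_cast at h1
    rw [hla, ZMod.natCast_self, zero_mul, add_zero] at h1
    exact h1
  have hinj : Set.InjOn (fun u : ℕ × ℕ => a⁻¹ * (u.1 : ZMod p)) (Y : Set (ℕ × ℕ)) := by
    intro u hu v hv huv
    obtain ⟨K, k1, k2, k3, k4⟩ := hval u (mem_coe.1 hu) v (mem_coe.1 hv)
    have h1 : (u.1 : ZMod p) = v.1 := mul_left_cancel₀ (inv_ne_zero ha) huv
    have h2 : (K : ZMod p) = 0 := by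
      rw [h1, sub_self] at k4
      have h3 : a * (K : ZMod p) = 0 := by rw [k4]; ring
      exact (mul_eq_zero.1 h3).resolve_left ha
    have h3 : K = 0 := by
      obtain ⟨m, hm⟩ := (ZMod.intCast_zmod_eq_zero_iff_dvd K p).1 h2
      rcases lt_trichotomy m 0 with h | h | h
      · nlinarith
      · rw [hm, h, mul_zero]
      · nlinarith
    rw [h3, mul_zero] at k3
    have h4 : ((u.1 : ℤ) - v.1) ^ 2 = 0 ∧ ((u.2 : ℤ) - v.2) ^ 2 = 0 := by
      have h5 : 0 ≤ ((u.1 : ℤ) - v.1) ^ 2 := sq_nonneg _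
      have h6 : 0 ≤ ((u.2 : ℤ) - v.2) ^ 2 := sq_nonneg _
      constructor
      · nlinarith [mul_nonneg hpZ.le h6]
      · by_contra h7
        have h8 : 0 < ((u.2 : ℤ) - v.2) ^ 2 := lt_of_le_of_ne h6 (Ne.symm h7)
        nlinarith [mul_pos hpZ h8]
    have h5 := pow_eq_zero_iff (two_ne_zero) |>.1 h4.1
    have h6 := pow_eq_zero_iff (two_ne_zero) |>.1 h4.2
    ext
    · omega
    · omega
  refine ⟨Y.image fun u => a⁻¹ * (u.1 : ZMod p), ?_, ?_⟩
  · rw [card_image_of_injOn hinj]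
    have hSc : S.card = (M + 1) * (J + 1) := by
      rw [hS, card_product, card_range, card_range]
    rw [hSc] at hc
    have h1 : (p * l) * l < (16 * (M + 1) ^ 2) * (16 * (J + 1) ^ 2) :=
      Nat.mul_lt_mul_of_lt_of_lt hM2 hJ2
    have h2 : ((M + 1) * (J + 1)) ^ 2 ≤ (l * Y.card) ^ 2 := Nat.pow_le_pow_left hc 2
    have h3 : p * (l * l) ≤ (256 * Y.card ^ 2) * (l * l) := by nlinarith
    exact Nat.le_of_mul_le_mul_right h3 (Nat.mul_pos hl hl)
  · intro t ht t' ht'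
    obtain ⟨u, hu, rfl⟩ := mem_image.1 ht
    obtain ⟨v, hv, rfl⟩ := mem_image.1 ht'
    obtain ⟨K, k1, k2, k3, k4⟩ := hval u hu v hv
    refine ⟨K, by rw [abs_of_nonneg k1]; exact k2, ?_⟩
    have h1 : a * (a⁻¹ * (u.1 : ZMod p) - a⁻¹ * (v.1 : ZMod p)) ^ 2 =
        (a * a⁻¹) * a⁻¹ * ((u.1 : ZMod p) - v.1) ^ 2 := by ring
    rw [h1, mul_inv_cancel₀ ha, one_mul, ← k4, ← mul_assoc, inv_mul_cancel₀ ha, one_mul]

open Classical in
theorem setT_S (p : ℕ) [Fact p.Prime] (c : ZMod p) (hc : c ≠ 0) (s : ℤ) (hs : |s| = 1) :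
    ∃ T : Finset (ZMod p), p ≤ 256 * T.card ^ 2 ∧
      ∀ t ∈ T, ∀ t' ∈ T, ∃ K : ℤ, 8 * |K| ≤ p ∧ (s : ZMod p) * c ^ 2 * (t - t') ^ 2 = K := by
  have hp : p.Prime := Fact.out
  obtain ⟨r, hr1, hr2⟩ := exists_rt p (k := 8) (by norm_num)
  have hrp : r < p := by
    by_contra h
    push Not at h
    have h1 : 1 ≤ p := hp.pos
    nlinarith
  refine ⟨(range (r + 1)).image fun i : ℕ => c⁻¹ * (i : ZMod p), ?_, ?_⟩
  · rw [card_image_of_injOn, card_range]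
    · nlinarith
    · intro i hi j hj hij
      rw [mem_coe, mem_range] at hi hj
      have h1 : (i : ZMod p) = j := mul_left_cancel₀ (inv_ne_zero hc) hij
      have h2 := (ZMod.natCast_eq_natCast_iff' i j p).1 h1
      rwa [Nat.mod_eq_of_lt (by omega), Nat.mod_eq_of_lt (by omega)] at h2
  · intro t ht t' ht'
    obtain ⟨i, hi, rfl⟩ := mem_image.1 ht
    obtain ⟨j, hj, rfl⟩ := mem_image.1 ht'
    rw [mem_range] at hi hj
    refine ⟨s * ((i : ℤ) - j) ^ 2, ?_, ?_⟩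
    · rw [abs_mul, hs, one_mul, abs_of_nonneg (sq_nonneg _)]
      have b1 : ((i : ℤ) - j) ^ 2 ≤ (r : ℤ) ^ 2 := sq_le_sq' (by omega) (by omega)
      have b2 : 8 * (r : ℤ) ^ 2 ≤ p := by exact_mod_cast hr1
      linarith
    · push_cast
      have h1 : (s : ZMod p) * c ^ 2 * (c⁻¹ * (i : ZMod p) - c⁻¹ * (j : ZMod p)) ^ 2 =
          s * (c * c⁻¹) ^ 2 * ((i : ZMod p) - j) ^ 2 := by ring
      rw [h1, mul_inv_cancel₀ hc, one_pow, mul_one]

/-- The sets `T`. -/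
theorem setT (p : ℕ) [Fact p.Prime] (hp2 : p ≠ 2) (a : ZMod p) (ha : a ≠ 0) :
    ∃ T : Finset (ZMod p), p ≤ 256 * T.card ^ 2 ∧ ∀ t ∈ T, ∀ t' ∈ T, ∃ K : ℤ, 8 * |K| ≤ p ∧ a * (t - t') ^ 2 = K := by
  have hp : p.Prime := Fact.out
  by_cases hsq : IsSquare a
  · obtain ⟨c, rfl⟩ := hsq
    obtain ⟨T, h1, h2⟩ := setT_S p c (fun h => ha (by rw [h, mul_zero])) 1 (by norm_num)
    refine ⟨T, h1, fun t ht t' ht' => ?_⟩
    obtain ⟨K, k1, k2⟩ := h2 t ht t' ht'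
    refine ⟨K, k1, ?_⟩
    rw [← k2]
    push_cast
    ring
  · have hodd : p % 2 = 1 := hp.eq_two_or_odd.resolve_left hp2
    by_cases hp4 : p % 4 = 1
    · exact setT_N p hp4 a ha hsq
    · have hp3 : p % 4 = 3 := by omega
      have hn2 : ¬ IsSquare (-1 : ZMod p) := fun h => (ZMod.exists_sq_eq_neg_one_iff.1 h) hp3
      have hs : IsSquare (-a) := by
        have h5 : quadraticChar (ZMod p) a = -1 := quadraticChar_neg_one_iff_not_isSquare.2 hsq
        have h6 : quadraticChar (ZMod p) (-1 : ZMod p) = -1 := quadraticChar_neg_one_iff_not_isSquare.2 hn2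
        have h7 : quadraticChar (ZMod p) (-a) = 1 := by
          rw [neg_eq_neg_one_mul, map_mul, h5, h6]
          norm_num
        exact (quadraticChar_one_iff_isSquare (neg_ne_zero.2 ha)).1 h7
      obtain ⟨c, hc⟩ := hs
      obtain ⟨T, h1, h2⟩ := setT_S p c (fun h => ha (by
        rw [h, mul_zero] at hc
        exact neg_eq_zero.1 hc)) (-1) (by norm_num)
      refine ⟨T, h1, fun t ht t' ht' => ?_⟩
      obtain ⟨K, k1, k2⟩ := h2 t ht t' ht'
      refine ⟨K, k1, ?_⟩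
      rw [← k2]
      push_cast
      have h3 : a = -(c * c) := by rw [← hc, neg_neg]
      rw [h3]
      ring

end Pool.Agent.C4g
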