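import Pool.Agent.C4g.Main
import Pool.Agent.C4g.Sets

/-!
# Every non-trivial character is good, and the bound for all sets of labels in odd order
-/

namespace Pool.Agent.C4g

open Finset

variable {X Z : Type} [AddCommGroup X] [Fintype X] [AddCommGroup Z] [Fintype Z]

theorem ee_re (p : ℕ) [Fact p.Prime] (K : ℤ) (hK : 4 * |K| ≤ p) : 0 ≤ (ee p (K : ZMod p)).re := by
  have hp : (0 : ℝ) < p := by exact_mod_cast (Fact.out : p.Prime).pos
  have h2 : ee p (K : ZMod p) = Complex.exp (((2 * Real.pi * K / p : ℝ) : ℂ) * Complex.I) := by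
    unfold ee
    rw [ZMod.stdAddChar_coe]
    congr 1
    push_cast
    ring
  rw [h2, Complex.exp_ofReal_mul_I_re]
  have h3 : (4 : ℝ) * |(K : ℝ)| ≤ p := by exact_mod_cast hK
  have h4 := abs_le.1 (show |(K : ℝ)| ≤ p / 4 by linarith)
  apply Real.cos_nonneg_of_neg_pi_div_two_le_of_le
  · rw [le_div_iff₀ hp]
    nlinarith [Real.pi_pos]
  · rw [div_le_iff₀ hp]
    nlinarith [Real.pi_pos]

omit [Fintype X] [Fintype Z] in
theorem Dat.two_zero [Fintype X] [Fintype Z] (D : Dat X Z) (y : Z) (hy : y + y = 0) : y = 0 := by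
  have h1 := D.expZ y
  obtain ⟨k, hk⟩ := D.hp.odd_of_ne_two D.hodd
  rw [hk, add_nsmul, mul_nsmul, one_nsmul, two_nsmul, hy] at h1
  simpa using h1

theorem Dat.F_neg (D : Dat X Z) (y : X) : D.F (-y) = D.F y := by
  have h1 := D.two_F y
  have h2 := D.two_F (-y)
  rw [D.symm, map_neg, D.symm, map_neg, neg_neg, ← h1, two_nsmul, two_nsmul] at h2
  have h3 : (D.F (-y) - D.F y) + (D.F (-y) - D.F y) = 0 := by
    rw [show (D.F (-y) - D.F y) + (D.F (-y) - D.F y) = (D.F (-y) + D.F (-y)) - (D.F y + D.F y) by abel, h2, sub_self]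
  exact sub_eq_zero.1 (D.two_zero _ h3)

theorem Dat.F_zsmul (D : Dat X Z) (n : ℤ) (x : X) : D.F (n • x) = (n.natAbs ^ 2) • D.F x := by
  obtain ⟨m, rfl | rfl⟩ := Int.eq_nat_or_neg n
  · rw [natCast_zsmul, D.F_nsmul, Int.natAbs_natCast]
  · rw [neg_smul, natCast_zsmul, D.F_neg, D.F_nsmul, Int.natAbs_neg, Int.natAbs_natCast]

theorem Dat.F_zero' (D : Dat X Z) : D.F 0 = 0 := by
  have h := D.F_nsmul 0 (0 : X)
  rw [zero_smul, Nat.zero_pow (by norm_num), zero_smul] at h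
  exact h

/-- For two elements of `A` the value `ψ(F(a - a'))` is `exp(2 pi i K/p)` with `8 |K| ≤ k p`. -/
def Dat.PK (D : Dat X Z) [Fact D.p.Prime] (ψ : AddChar Z ℂ) (k : ℕ) (A : Finset X) : Prop :=
  ∀ a ∈ A, ∀ a' ∈ A, ∃ K : ℤ, 8 * |K| ≤ k * D.p ∧ ψ (D.F (a - a')) = ee D.p (K : ZMod D.p)

theorem Dat.step (D : Dat X Z) [Fact D.p.Prime] {ψ : AddChar Z ℂ} {k : ℕ} {A : Finset X} (hA : D.PK ψ k A) {e : X}
    (he : ∀ a ∈ A, ∀ a' ∈ A, ψ (D.b e (a - a')) = 1) (h1 : ψ (D.F e) ≠ 1) :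
    ∃ A' : Finset X, D.PK ψ (k + 1) A' ∧ D.p * A.card ^ 2 ≤ 256 * A'.card ^ 2 ∧
      ∀ y ∈ A', ∃ a ∈ A, ∃ n : ℤ, y = a + n • e := by
  classical
  have hzp : ψ (D.F e) ^ D.p = 1 := by
    rw [← AddChar.map_nsmul_eq_pow, D.expZ, AddChar.map_zero_eq_one]
  obtain ⟨c, hc⟩ := case1_root D.p hzp
  have hc0 : c ≠ 0 := by
    rintro rfl
    apply h1
    rw [hc, ee, AddChar.map_zero_eq_one]
  obtain ⟨T, hT1, hT2⟩ := setT D.p D.hodd c hc0
  have hdiff : ∀ a ∈ A, ∀ a' ∈ A, ∀ t t' : ZMod D.p,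
      ψ (D.F ((a + t.val • e) - (a' + t'.val • e))) = ψ (D.F (a - a')) * ee D.p (c * (t - t') ^ 2) := by
    intro a ha a' ha' t t'
    have h2 : (a + t.val • e) - (a' + t'.val • e) = (a - a') + ((t.val : ℤ) - t'.val) • e := by
      rw [sub_smul, natCast_zsmul, natCast_zsmul]
      abel
    have h3 : ψ (D.b (a - a') (((t.val : ℤ) - t'.val) • e)) = 1 := by
      rw [map_zsmul, D.symm, AddChar.map_zsmul_eq_zpow, he a ha a' ha', one_zpow]
    have h4 : ((((t.val : ℤ) - t'.val).natAbs ^ 2 : ℕ) : ZMod D.p) = (t - t') ^ 2 := by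
      have h5 : (((((t.val : ℤ) - t'.val).natAbs ^ 2 : ℕ) : ℤ) : ZMod D.p) =
          (((t.val : ℤ) - t'.val : ℤ) : ZMod D.p) ^ 2 := by
        rw [← Int.cast_pow]
        congr 1
        push_cast
        rw [sq_abs]
      rw [Int.cast_natCast] at h5
      rw [h5]
      push_cast
      rw [ZMod.natCast_zmod_val, ZMod.natCast_zmod_val]
    rw [h2, D.F_add, D.F_zsmul, AddChar.map_add_eq_mul, AddChar.map_add_eq_mul, h3, mul_one,
      AddChar.map_nsmul_eq_pow, hc, case1_pow, h4]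
  have hinj : Set.InjOn (fun u : X × ZMod D.p => u.1 + u.2.val • e) ((A ×ˢ T : Finset (X × ZMod D.p)) : Set _) := by
    rintro ⟨a, t⟩ hu ⟨a', t'⟩ hv huv
    have hu' := mem_product.1 (Finset.mem_coe.1 hu)
    have hv' := mem_product.1 (Finset.mem_coe.1 hv)
    simp only at hu' hv' huv
    have h2 : a - a' = ((t'.val : ℤ) - t.val) • e := by
      rw [sub_smul, natCast_zsmul, natCast_zsmul]
      have h3 : a = a' + t'.val • e - t.val • e := eq_sub_of_add_eq huv
      rw [h3]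
      abel
    have h3 : ψ (D.b e e) ^ ((t'.val : ℤ) - t.val) = 1 := by
      have h4 := he a hu'.1 a' hv'.1
      rw [h2, map_zsmul, AddChar.map_zsmul_eq_zpow] at h4
      exact h4
    have h4 : ψ (D.b e e) = ee D.p (c * 2) := by
      rw [← D.two_F, AddChar.map_nsmul_eq_pow, hc, case1_pow]
      norm_num
    rw [h4, ee, ← AddChar.map_zsmul_eq_zpow, zsmul_eq_mul] at h3
    have h5 : (((t'.val : ℤ) - t.val : ℤ) : ZMod D.p) * (c * 2) = 0 := by
      apply ZMod.injective_stdAddChar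
      rw [h3, AddChar.map_zero_eq_one]
    have h6 : (2 : ZMod D.p) ≠ 0 := by
      intro h7
      have h8 : ((2 : ℕ) : ZMod D.p) = 0 := by exact_mod_cast h7
      rw [ZMod.natCast_eq_zero_iff] at h8
      exact D.hodd ((Nat.prime_dvd_prime_iff_eq D.hp Nat.prime_two).1 h8)
    have h7 : (((t'.val : ℤ) - t.val : ℤ) : ZMod D.p) = 0 :=
      (mul_eq_zero.1 h5).resolve_right (mul_ne_zero hc0 h6)
    push_cast at h7
    rw [ZMod.natCast_zmod_val, ZMod.natCast_zmod_val, sub_eq_zero] at h7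
    subst h7
    rw [add_right_cancel huv]
  refine ⟨(A ×ˢ T).image fun u : X × ZMod D.p => u.1 + u.2.val • e, ?_, ?_, ?_⟩
  · intro y hy y' hy'
    obtain ⟨⟨a, t⟩, hu, rfl⟩ := mem_image.1 hy
    obtain ⟨⟨a', t'⟩, hv, rfl⟩ := mem_image.1 hy'
    have hu' := mem_product.1 hu
    have hv' := mem_product.1 hv
    simp only at hu' hv'
    obtain ⟨K1, k1, k2⟩ := hA a hu'.1 a' hv'.1
    obtain ⟨K2, k3, k4⟩ := hT2 t hu'.2 t' hv'.2
    refine ⟨K1 + K2, ?_, ?_⟩
    · have h2 := abs_add_le K1 K2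
      push_cast
      linarith
    · show ψ (D.F ((a + t.val • e) - (a' + t'.val • e))) = _
      rw [hdiff a hu'.1 a' hv'.1, k2, k4, ee, ee, ee, ← AddChar.map_add_eq_mul]
      push_cast
      rfl
  · rw [card_image_of_injOn hinj, card_product]
    have h2 : D.p * A.card ^ 2 ≤ 256 * T.card ^ 2 * A.card ^ 2 := Nat.mul_le_mul_right _ hT1
    calc D.p * A.card ^ 2 ≤ 256 * T.card ^ 2 * A.card ^ 2 := h2
      _ = 256 * (A.card * T.card) ^ 2 := by ring
  · intro y hy
    obtain ⟨⟨a, t⟩, hu, rfl⟩ := mem_image.1 hy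
    exact ⟨a, (mem_product.1 hu).1, (t.val : ℤ), by rw [natCast_zsmul]⟩

theorem Dat.exists_out (D : Dat X Z) {ψ : AddChar Z ℂ} {W : AddSubgroup X} (h : Nat.card W < Nat.card (D.perp ψ W)) :
    ∃ e, e ∈ D.perp ψ W ∧ e ∉ W := by
  by_contra hcon
  push Not at hcon
  have hle : D.perp ψ W ≤ W := fun x hx => hcon x hx
  have h1 : Nat.card (D.perp ψ W) ≤ Nat.card W :=
    Nat.card_le_card_of_injective (AddSubgroup.inclusion hle) (AddSubgroup.inclusion_injective hle)
  omega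

theorem Dat.exists_out2 (D : Dat X Z) [Fact D.p.Prime] {ψ : AddChar Z ℂ} {W : AddSubgroup X}
    (h : D.p * Nat.card W < Nat.card (D.perp ψ W)) (e : X) :
    ∃ e' ∈ D.perp ψ W, e' ∉ W ∧ ψ (D.b e e') = 1 := by
  classical
  by_contra hcon
  push Not at hcon
  have hcW : Nat.card W = (univ.filter (fun x => x ∈ W)).card := by
    rw [Nat.card_eq_fintype_card, Fintype.card_subtype]
  have hcP : Nat.card (D.perp ψ W) = (univ.filter (fun x => x ∈ D.perp ψ W)).card := by
    rw [Nat.card_eq_fintype_card, Fintype.card_subtype]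
  have h1 : (univ.filter (fun x => x ∈ D.perp ψ W)).card ≤
      Nat.card W * ((univ.filter (fun x => x ∈ D.perp ψ W)).image fun x => ψ (D.b e x)).card := by
    apply Finset.card_le_mul_card_image
    intro z hz
    obtain ⟨y, hy, rfl⟩ := mem_image.1 hz
    rw [hcW]
    apply Finset.card_le_card_of_injOn (fun x => x - y)
    · intro x hx
      rw [Finset.mem_coe, mem_filter, mem_filter] at hx
      rw [mem_filter] at hy
      rw [Finset.mem_coe, mem_filter]
      refine ⟨mem_univ _, ?_⟩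
      by_contra hn
      have h2 := hcon (x - y) ((D.perp ψ W).sub_mem hx.1.2 hy.2) hn
      apply h2
      rw [map_sub, AddChar.map_sub_eq_div, hx.2]
      apply div_self
      intro h3
      have h4 := ψ.map_add_eq_mul (D.b e y) (-(D.b e y))
      rw [add_neg_cancel, AddChar.map_zero_eq_one, h3, zero_mul] at h4
      exact one_ne_zero h4
    · intro x _ x' _ hxx
      exact sub_left_injective hxx
  have h2 : ((univ.filter (fun x => x ∈ D.perp ψ W)).image fun x => ψ (D.b e x)).card ≤ D.p := by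
    have h3 : (univ.filter (fun x => x ∈ D.perp ψ W)).image (fun x => ψ (D.b e x)) ⊆
        (univ : Finset (ZMod D.p)).image (ee D.p) := by
      intro z hz
      obtain ⟨y, hy, rfl⟩ := mem_image.1 hz
      obtain ⟨a, ha⟩ := case1_root D.p (z := ψ (D.b e y)) (by
        rw [← AddChar.map_nsmul_eq_pow, D.expZ, AddChar.map_zero_eq_one])
      exact mem_image.2 ⟨a, mem_univ _, ha.symm⟩
    refine (Finset.card_le_card h3).trans (Finset.card_image_le.trans ?_)
    rw [Finset.card_univ, ZMod.card]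
  have h3 : Nat.card (D.perp ψ W) ≤ D.p * Nat.card W := by
    rw [hcP]
    refine h1.trans ?_
    rw [mul_comm]
    exact Nat.mul_le_mul_right _ h2
  omega

theorem Dat.good_all (D : Dat X Z) {ψ : AddChar Z ℂ} (hψ : ψ ≠ 1) :
    ∃ A : Finset X, Fintype.card X ≤ 256 ^ 2 * A.card ^ 2 ∧ ∀ a ∈ A, ∀ a' ∈ A, 0 ≤ (ψ (D.F (a - a'))).re := by
  classical
  have : Fact D.p.Prime := ⟨D.hp⟩
  obtain ⟨W, hW⟩ := D.exists_max ψ
  have hcW : Nat.card W = (univ.filter (fun x => x ∈ W)).card := by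
    rw [Nat.card_eq_fintype_card, Fintype.card_subtype]
  have hPKre : ∀ (k : ℕ) (A : Finset X), k ≤ 2 → D.PK ψ k A → ∀ a ∈ A, ∀ a' ∈ A, 0 ≤ (ψ (D.F (a - a'))).re := by
    intro k A hk hA a ha a' ha'
    obtain ⟨K, k1, k2⟩ := hA a ha a' ha'
    rw [k2]
    apply ee_re
    have h1 : (k : ℤ) * D.p ≤ 2 * D.p := by
      have : (k : ℤ) ≤ 2 := by exact_mod_cast hk
      exact mul_le_mul_of_nonneg_right this (Int.natCast_nonneg _)
    linarith
  have h0 : D.PK ψ 0 (univ.filter (fun x => x ∈ W)) := by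
    intro a ha a' ha'
    refine ⟨0, by simp, ?_⟩
    have h1 := W.sub_mem (mem_filter.1 ha).2 (mem_filter.1 ha').2
    rw [D.iso_F (hW.1 _ h1 _ h1), Int.cast_zero, ee, AddChar.map_zero_eq_one]
  have hout : ∀ e, e ∈ D.perp ψ W → e ∉ W → ψ (D.F e) ≠ 1 := fun e he heW h => heW (D.mem_of_max hW he h)
  have hort : ∀ e, e ∈ D.perp ψ W → ∀ w ∈ W, ψ (D.b e w) = 1 := by
    intro e he w hw
    rw [D.symm]
    exact he w hw
  have hp2 := D.hp.two_le
  have hq := D.card_perp hψ W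
  have hW0 : 0 < Nat.card W := Nat.card_pos
  obtain ⟨a, c, ha, hc, hac, h | h | h⟩ := D.types_cards hψ hW
  · refine ⟨univ.filter (fun x => x ∈ W), ?_, hPKre 0 _ (by norm_num) h0⟩
    rw [← hcW, ← hq, hc, h, ← ha]
    nlinarith
  · have hperp : Nat.card (D.perp ψ W) = D.p * Nat.card W := by
      rw [hc, h, ha, pow_succ, mul_comm]
    obtain ⟨e, he, heW⟩ := D.exists_out (ψ := ψ) (W := W) (by rw [hperp]; nlinarith)
    obtain ⟨A1, hA1, hc1, -⟩ := D.step h0 (e := e) (fun a ha a' ha' =>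
      hort e he _ (W.sub_mem (mem_filter.1 ha).2 (mem_filter.1 ha').2)) (hout e he heW)
    refine ⟨A1, ?_, hPKre 1 _ (by norm_num) hA1⟩
    rw [← hcW] at hc1
    rw [← hq, hperp]
    nlinarith
  · have hperp : Nat.card (D.perp ψ W) = D.p * D.p * Nat.card W := by
      rw [hc, h, ha, pow_succ, pow_succ]
      ring
    obtain ⟨e, he, heW⟩ := D.exists_out (ψ := ψ) (W := W) (by
      rw [hperp]
      have : 1 < D.p * D.p := by nlinarith
      nlinarith)
    obtain ⟨e', he', heW', hee⟩ := D.exists_out2 (ψ := ψ) (W := W) (by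
      rw [hperp]
      have : D.p < D.p * D.p := by nlinarith
      exact Nat.mul_lt_mul_of_pos_right this hW0) e
    obtain ⟨A1, hA1, hc1, hm⟩ := D.step h0 (e := e) (fun a ha a' ha' =>
      hort e he _ (W.sub_mem (mem_filter.1 ha).2 (mem_filter.1 ha').2)) (hout e he heW)
    obtain ⟨A2, hA2, hc2, -⟩ := D.step hA1 (e := e') (fun y hy y' hy' => by
      obtain ⟨w, hw, n, rfl⟩ := hm y hy
      obtain ⟨w', hw', n', rfl⟩ := hm y' hy'
      have h1 : w + n • e - (w' + n' • e) = (w - w') + (n - n') • e := by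
        rw [sub_smul]
        abel
      rw [h1, map_add, AddChar.map_add_eq_mul,
        hort e' he' _ (W.sub_mem (mem_filter.1 hw).2 (mem_filter.1 hw').2), one_mul, map_zsmul,
        AddChar.map_zsmul_eq_zpow, D.symm, hee, one_zpow]) (hout e' he' heW')
    refine ⟨A2, ?_, hPKre 2 _ le_rfl hA2⟩
    rw [← hcW] at hc1
    rw [← hq, hperp]
    calc Nat.card W * (D.p * D.p * Nat.card W) = D.p * (D.p * Nat.card W ^ 2) := by ring
      _ ≤ D.p * (256 * A1.card ^ 2) := Nat.mul_le_mul_left _ hc1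
      _ = 256 * (D.p * A1.card ^ 2) := by ring
      _ ≤ 256 * (256 * A2.card ^ 2) := Nat.mul_le_mul_left _ hc2
      _ = 256 ^ 2 * A2.card ^ 2 := by ring

end Pool.Agent.C4g
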