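import Pool.Agent.C4g.Gs

/-! # Independent sets in the polarity graphs of semifield planes: the steps for an arbitrary polarity -/

namespace Pool.Agent.C4g

open Finset

variable {X Z : Type} [AddCommGroup X] [Fintype X] [AddCommGroup Z] [Fintype Z]

open Classical in
/-- row shift. Pigeonhole: `∑_c #{u ∈ U : x u - c ∈ A} = |U| |A|`. -/
theorem shift {V : Type} (U : Finset V) (x : V → X) (A : Finset X) :
    ∃ c : X, U.card * A.card ≤ Fintype.card X * (U.filter fun u => x u - c ∈ A).card := by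
  have hsum : ∑ c : X, (U.filter fun u => x u - c ∈ A).card = U.card * A.card := by
    have h1 : ∀ c : X, (U.filter fun u => x u - c ∈ A).card =
        ∑ u ∈ U, if x u - c ∈ A then 1 else 0 := by
      intro c
      rw [Finset.card_filter]
    rw [Finset.sum_congr rfl fun c _ => h1 c, Finset.sum_comm]
    have h2 : ∀ u ∈ U, ∑ c : X, (if x u - c ∈ A then 1 else 0) = A.card := by
      intro u _
      rw [← Finset.card_filter]
      apply Finset.card_bij (fun c _ => x u - c)
      · intro c hc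
        exact (Finset.mem_filter.1 hc).2
      · intro c _ c' _ h
        exact sub_right_injective h
      · intro a ha
        refine ⟨x u - a, ?_, by abel⟩
        rw [Finset.mem_filter]
        refine ⟨Finset.mem_univ _, ?_⟩
        rw [sub_sub_cancel]
        exact ha
    rw [Finset.sum_congr rfl h2, Finset.sum_const, smul_eq_mul]
  by_contra hcon
  push Not at hcon
  have h3 : ∑ c : X, Fintype.card X * (U.filter fun u => x u - c ∈ A).card <
      ∑ _c : X, U.card * A.card :=
    Finset.sum_lt_sum_of_nonempty ⟨0, Finset.mem_univ _⟩ fun c _ => hcon c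
  rw [← Finset.mul_sum, hsum, Finset.sum_const, Finset.card_univ, smul_eq_mul] at h3
  exact lt_irrefl _ h3

open Classical in
/-- row geo. `I` = one of the two halves (`Im ψ(w u) > 0` or `< 0`) of `{u ∈ U : (ψ (2 • w u)).re < 0}` (there
`|Re ψ(w u)| < |Im ψ(w u)|`), then `shift`. Two adjacent ones: `ψ(w u) ψ(w v) = conj ψ(F(x u - x v))` has real part `≥ 0`, but
`Re Re' - Im Im' < 0`. -/
theorem Dat.geo (D : Dat X Z) {ψ : AddChar Z ℂ} (hg : D.Good ψ) {V : Type} (G : SimpleGraph V) (x : V → X) (w : V → Z)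
    (hG : ∀ u v, G.Adj u v → w u + w v = -D.F (x u - x v)) (U : Finset V) :
    ∃ I : Finset V, I ⊆ U ∧ G.IsIndepSet (I : Set V) ∧
      ((U.filter fun u => (ψ (2 • w u)).re < 0).card : ℝ) ≤ 4 * Real.sqrt (Fintype.card X) * I.card := by
  obtain ⟨A, hA1, hA2⟩ := hg
  set U0 := U.filter fun u => (ψ (2 • w u)).re < 0 with hU0
  have hre : ∀ u ∈ U0, (ψ (w u)).re ^ 2 < (ψ (w u)).im ^ 2 := by
    intro u hu
    have h := (Finset.mem_filter.1 hu).2
    rw [AddChar.map_nsmul_eq_pow, pow_two, Complex.mul_re] at h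
    nlinarith
  have key : ∀ s : ℝ, (∀ I : Finset V, (∀ u ∈ I, u ∈ U0 ∧ 0 < s * (ψ (w u)).im) →
      (∃ c : X, ∀ u ∈ I, x u - c ∈ A) → G.IsIndepSet (I : Set V)) := by
    intro s I hI hc u hu v hv _ hadj
    obtain ⟨c, hc⟩ := hc
    have hu' := hI u (Finset.mem_coe.1 hu)
    have hv' := hI v (Finset.mem_coe.1 hv)
    have h1 := hG u v hadj
    have h2 : 0 ≤ (ψ (D.F (x u - x v))).re := by
      have := hA2 _ (hc u (Finset.mem_coe.1 hu)) _ (hc v (Finset.mem_coe.1 hv))
      rwa [sub_sub_sub_cancel_right] at this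
    have h3 : ψ (w u) * ψ (w v) = (starRingEnd ℂ) (ψ (D.F (x u - x v))) := by
      rw [← AddChar.map_add_eq_mul, h1, AddChar.map_neg_eq_conj]
    have h4 : (ψ (w u) * ψ (w v)).re = (ψ (D.F (x u - x v))).re := by
      rw [h3, Complex.conj_re]
    rw [Complex.mul_re] at h4
    have h5 := hre u hu'.1
    have h6 := hre v hv'.1
    have h7 : 0 < (ψ (w u)).im * (ψ (w v)).im := by
      have h8 : 0 < (s * (ψ (w u)).im) * (s * (ψ (w v)).im) := mul_pos hu'.2 hv'.2
      have h9 : (s * (ψ (w u)).im) * (s * (ψ (w v)).im) = s ^ 2 * ((ψ (w u)).im * (ψ (w v)).im) := by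
        ring
      rw [h9] at h8
      exact pos_of_mul_pos_right h8 (sq_nonneg s)
    have h10 : ((ψ (w u)).re * (ψ (w v)).re) ^ 2 < ((ψ (w u)).im * (ψ (w v)).im) ^ 2 := by
      rw [mul_pow, mul_pow]
      have e1 : (0 : ℝ) ≤ (ψ (w u)).re ^ 2 := sq_nonneg _
      have e2 : (0 : ℝ) ≤ (ψ (w v)).re ^ 2 := sq_nonneg _
      nlinarith
    have h11 := abs_lt_of_sq_lt_sq h10 h7.le
    have h12 := (abs_lt.1 h11).2
    linarith
  have hq0 : (0 : ℝ) ≤ Real.sqrt (Fintype.card X) := Real.sqrt_nonneg _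
  have hq2 : Real.sqrt (Fintype.card X) ^ 2 = Fintype.card X := Real.sq_sqrt (Nat.cast_nonneg _)
  have hqpos : 0 < Real.sqrt (Fintype.card X) := by
    apply Real.sqrt_pos.2
    have : 0 < Fintype.card X := Fintype.card_pos_iff.2 ⟨0⟩
    exact_mod_cast this
  have hAc : Real.sqrt (Fintype.card X) ≤ 2 * A.card := by
    apply Real.sqrt_le_iff.2
    constructor
    · positivity
    · nlinarith
  have fin : ∀ U1 : Finset V, U0.card ≤ 2 * U1.card → (∃ s : ℝ, ∀ u ∈ U1, u ∈ U0 ∧ 0 < s * (ψ (w u)).im) →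
      ∃ I : Finset V, I ⊆ U ∧ G.IsIndepSet (I : Set V) ∧
        (U0.card : ℝ) ≤ 4 * Real.sqrt (Fintype.card X) * I.card := by
    intro U1 hU1 hs
    obtain ⟨s, hs⟩ := hs
    obtain ⟨c, hc⟩ := shift U1 x A
    refine ⟨U1.filter fun u => x u - c ∈ A, ?_, ?_, ?_⟩
    · intro u hu
      exact (Finset.mem_filter.1 (hs u (Finset.mem_filter.1 hu).1).1).1
    · apply key s
      · intro u hu
        exact hs u (Finset.mem_filter.1 hu).1
      · exact ⟨c, fun u hu => (Finset.mem_filter.1 hu).2⟩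
    · have hc' : (U1.card : ℝ) * A.card ≤ Fintype.card X * ((U1.filter fun u => x u - c ∈ A).card : ℝ) := by
        exact_mod_cast hc
      have hU1' : (U0.card : ℝ) ≤ 2 * U1.card := by exact_mod_cast hU1
      set N : ℝ := ((U1.filter fun u => x u - c ∈ A).card : ℝ) with hN
      have hN0 : 0 ≤ N := Nat.cast_nonneg _
      have h1 : (U1.card : ℝ) * Real.sqrt (Fintype.card X) ≤ 2 * (Real.sqrt (Fintype.card X) ^ 2 * N) := by
        rw [hq2]
        have : (U1.card : ℝ) * Real.sqrt (Fintype.card X) ≤ (U1.card : ℝ) * (2 * A.card) :=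
          mul_le_mul_of_nonneg_left hAc (Nat.cast_nonneg _)
        linarith
      have h2 : (U1.card : ℝ) ≤ 2 * Real.sqrt (Fintype.card X) * N := by
        apply le_of_mul_le_mul_right _ hqpos
        calc (U1.card : ℝ) * Real.sqrt (Fintype.card X) ≤ 2 * (Real.sqrt (Fintype.card X) ^ 2 * N) := h1
          _ = 2 * Real.sqrt (Fintype.card X) * N * Real.sqrt (Fintype.card X) := by ring
      linarith
  have hcard := Finset.card_filter_add_card_filter_not (s := U0) (fun u => 0 < (ψ (w u)).im)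
  by_cases hh : U0.card ≤ 2 * (U0.filter fun u => 0 < (ψ (w u)).im).card
  · apply fin _ hh
    refine ⟨1, ?_⟩
    intro u hu
    rw [one_mul]
    exact ⟨(Finset.mem_filter.1 hu).1, (Finset.mem_filter.1 hu).2⟩
  · apply fin (U0.filter fun u => ¬ 0 < (ψ (w u)).im) (by omega)
    refine ⟨-1, ?_⟩
    intro u hu
    have h1 := (Finset.mem_filter.1 hu).1
    have h2 := (Finset.mem_filter.1 hu).2
    refine ⟨h1, ?_⟩
    have h3 := hre u h1
    have h4 : (ψ (w u)).im ≠ 0 := by
      intro h0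
      rw [h0] at h3
      nlinarith [sq_nonneg (ψ (w u)).re]
    have h5 : (ψ (w u)).im < 0 := lt_of_le_of_ne (not_lt.1 h2) h4
    linarith

omit [Fintype X] [Fintype Z] in
private theorem iso2_bil (b : X →+ X →+ Z) (x y x' y' : X) :
    b (x + y) (x' + y') = (b x x' + b x y') + (b y x' + b y y') := by
  rw [map_add b, AddMonoidHom.add_apply, map_add (b x), map_add (b y)]

omit [Fintype X] [Fintype Z] in
private theorem iso2_mem (b : X →+ X →+ Z) (hs : ∀ x y, b x y = b y x) (ψ : AddChar Z ℂ)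
    {W : AddSubgroup X} (hW : ∀ w ∈ W, ∀ w' ∈ W, ψ (b w w') = 1)
    (hmax : ∀ W' : AddSubgroup X, W ≤ W' → (∀ w ∈ W', ∀ w' ∈ W', ψ (b w w') = 1) → W' ≤ W)
    {x : X} (hx : ∀ w ∈ W, ψ (b w x) = 1) (h1 : ψ (b x x) = 1) : x ∈ W := by
  have h2 : W ⊔ AddSubgroup.zmultiples x ≤ W := by
    apply hmax _ le_sup_left
    intro u hu v hv
    obtain ⟨w, hw, y, hy, rfl⟩ := AddSubgroup.mem_sup.1 hu
    obtain ⟨w', hw', y', hy', rfl⟩ := AddSubgroup.mem_sup.1 hv
    obtain ⟨k, rfl⟩ := AddSubgroup.mem_zmultiples_iff.1 hy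
    obtain ⟨k', rfl⟩ := AddSubgroup.mem_zmultiples_iff.1 hy'
    have e1 : ψ (b w (k' • x)) = 1 := by
      rw [map_zsmul, AddChar.map_zsmul_eq_zpow, hx w hw, one_zpow]
    have e2 : ψ (b (k • x) w') = 1 := by
      rw [hs, map_zsmul, AddChar.map_zsmul_eq_zpow, hx w' hw', one_zpow]
    have e3 : ψ (b (k • x) (k' • x)) = 1 := by
      rw [map_zsmul, AddChar.map_zsmul_eq_zpow, hs, map_zsmul, AddChar.map_zsmul_eq_zpow, h1, one_zpow,
        one_zpow]
    rw [iso2_bil, AddChar.map_add_eq_mul, AddChar.map_add_eq_mul, AddChar.map_add_eq_mul,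
      hW w hw w' hw', e1, e2, e3]
    norm_num
  exact h2 (AddSubgroup.mem_sup_right (AddSubgroup.mem_zmultiples x))

omit [Fintype Z] in
private theorem iso2_sq (h2 : ∀ x : Z, 2 • x = 0) (ψ : AddChar Z ℂ) (y : Z) : ψ y * ψ y = 1 := by
  rw [← AddChar.map_add_eq_mul, ← two_nsmul, h2, AddChar.map_zero_eq_one]

open Classical in
omit [Fintype Z] in
private theorem iso2_perp (b : X →+ X →+ Z) (ψ : AddChar Z ℂ) (W : AddSubgroup X) :
    Fintype.card X ≤ (univ.filter fun x : X => ∀ w ∈ W, ψ (b w x) = 1).card * Nat.card W := by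
  let f : X → AddChar W ℂ := fun x => ψ.compAddMonoidHom ((b.flip x).comp W.subtype)
  have hf : ∀ (x : X) (w : W), f x w = ψ (b w x) := fun x w => rfl
  have h1 : (univ : Finset X).card ≤
      (univ.filter fun x : X => ∀ w ∈ W, ψ (b w x) = 1).card * ((univ : Finset X).image f).card := by
    apply Finset.card_le_mul_card_image
    intro a ha
    obtain ⟨y, _, rfl⟩ := mem_image.1 ha
    apply Finset.card_le_card_of_injOn (fun x => x - y)
    · intro x hx
      rw [Finset.mem_coe, mem_filter] at hx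
      rw [Finset.mem_coe, mem_filter]
      refine ⟨mem_univ _, fun w hw => ?_⟩
      have h3 : ψ (b w x) = ψ (b w y) := by
        have h4 := hf x ⟨w, hw⟩
        rw [hx.2, hf y ⟨w, hw⟩] at h4
        exact h4.symm
      have h5 : ψ (b w y) ≠ 0 := by
        intro h6
        have h7 := ψ.map_add_eq_mul (b w y) (-(b w y))
        rw [add_neg_cancel, AddChar.map_zero_eq_one, h6, zero_mul] at h7
        exact one_ne_zero h7
      have h6 : ψ (b w x) = ψ (b w (x - y)) * ψ (b w y) := by
        rw [← AddChar.map_add_eq_mul, ← map_add, sub_add_cancel]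
      rw [h3] at h6
      exact (mul_right_cancel₀ h5 (by rw [one_mul]; exact h6)).symm
    · intro x _ x' _ h
      exact sub_left_injective h
  have h2 : ((univ : Finset X).image f).card ≤ Nat.card W := by
    calc ((univ : Finset X).image f).card ≤ Fintype.card (AddChar W ℂ) := Finset.card_le_univ _
      _ = Fintype.card W := AddChar.card_eq
      _ = Nat.card W := (Nat.card_eq_fintype_card).symm
  rw [Finset.card_univ] at h1
  exact h1.trans (Nat.mul_le_mul_left _ h2)

open Classical in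
/-- row iso2. Exponent 2: a subgroup `W` with `ψ(b w w') = 1` on `W × W`, `q ≤ 2 |W|^2`. Take `W` maximal; for `x` in the
orthogonal `W'` with `ψ(b x x) = 1` one has `x ∈ W`; `x ↦ ψ(b x x)` is a homomorphism to `±1` on `X`, so `|W'| ≤ 2 |W|`;
`|W'| |W| ≥ q` (double count as in `card_perp`). -/
theorem iso2 (b : X →+ X →+ Z) (hs : ∀ x y, b x y = b y x)
    (h2 : ∀ x : X, 2 • x = 0) (h2' : ∀ x : Z, 2 • x = 0) (ψ : AddChar Z ℂ) :
    ∃ W : AddSubgroup X, (∀ w ∈ W, ∀ w' ∈ W, ψ (b w w') = 1) ∧ Fintype.card X ≤ 2 * Nat.card W ^ 2 := by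
  obtain ⟨W, hW⟩ := (Set.toFinite {W : AddSubgroup X | ∀ w ∈ W, ∀ w' ∈ W, ψ (b w w') = 1}).exists_maximal
    ⟨⊥, by
      intro w hw w' _
      rw [AddSubgroup.mem_bot.1 hw, map_zero, AddMonoidHom.zero_apply, AddChar.map_zero_eq_one]⟩
  have hiso : ∀ w ∈ W, ∀ w' ∈ W, ψ (b w w') = 1 := hW.1
  have hmax : ∀ W' : AddSubgroup X, W ≤ W' → (∀ w ∈ W', ∀ w' ∈ W', ψ (b w w') = 1) → W' ≤ W :=
    fun W' h h' => hW.2 h' h
  refine ⟨W, hiso, ?_⟩
  have hcW : Nat.card W = (univ.filter (fun x => x ∈ W)).card := by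
    rw [Nat.card_eq_fintype_card, Fintype.card_subtype]
  have h1 := iso2_perp b ψ W
  have h3 : (univ.filter fun x : X => ∀ w ∈ W, ψ (b w x) = 1).card ≤ 2 * Nat.card W := by
    by_cases hall : ∀ x ∈ (univ.filter fun x : X => ∀ w ∈ W, ψ (b w x) = 1), x ∈ W
    · have h4 : (univ.filter fun x : X => ∀ w ∈ W, ψ (b w x) = 1).card ≤
          (univ.filter (fun x => x ∈ W)).card :=
        Finset.card_le_card fun x hx => mem_filter.2 ⟨mem_univ _, hall x hx⟩
      omega
    · push Not at hall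
      obtain ⟨x0, hx0, hx0W⟩ := hall
      have hx0' := (mem_filter.1 hx0).2
      have hne : ∀ x : X, (∀ w ∈ W, ψ (b w x) = 1) → x ∉ W → ψ (b x x) = -1 := by
        intro x hx hxW
        rcases mul_self_eq_one_iff.1 (iso2_sq h2' ψ (b x x)) with h | h
        · exact (hxW (iso2_mem b hs ψ hiso hmax hx h)).elim
        · exact h
      have hsub : (univ.filter fun x : X => ∀ w ∈ W, ψ (b w x) = 1) ⊆
          (univ.filter (fun x => x ∈ W)) ∪ (univ.filter (fun x => x ∈ W)).image (fun w => w + x0) := by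
        intro x hx
        have hx' := (mem_filter.1 hx).2
        rw [mem_union]
        by_cases hxW : x ∈ W
        · exact Or.inl (mem_filter.2 ⟨mem_univ _, hxW⟩)
        · right
          have h5 : x + x0 ∈ W := by
            apply iso2_mem b hs ψ hiso hmax
            · intro w hw
              rw [map_add, AddChar.map_add_eq_mul, hx' w hw, hx0' w hw, one_mul]
            · rw [iso2_bil, AddChar.map_add_eq_mul, AddChar.map_add_eq_mul, AddChar.map_add_eq_mul,
                hne x hx' hxW, hne x0 hx0' hx0W, hs x0 x]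
              have h6 := iso2_sq h2' ψ (b x x0)
              linear_combination h6
          refine mem_image.2 ⟨x + x0, mem_filter.2 ⟨mem_univ _, h5⟩, ?_⟩
          have h7 := h2 x0
          rw [two_nsmul] at h7
          rw [add_assoc, h7, add_zero]
      have h8 := Finset.card_le_card hsub
      have h9 := Finset.card_union_le (univ.filter (fun x => x ∈ W))
        ((univ.filter (fun x => x ∈ W)).image (fun w => w + x0))
      have h10 : ((univ.filter (fun x => x ∈ W)).image (fun w => w + x0)).card ≤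
          (univ.filter (fun x => x ∈ W)).card := Finset.card_image_le
      omega
  calc Fintype.card X ≤ _ := h1
    _ ≤ (2 * Nat.card W) * Nat.card W := Nat.mul_le_mul_right _ h3
    _ = 2 * Nat.card W ^ 2 := by ring

open Classical in
private theorem twoB_half {V : Type} (G : SimpleGraph V) (U : Finset V) (σ : V → ℂ)
    (h1 : ∀ u ∈ U, σ u = 1 ∨ σ u = -1) (h2 : ∀ u ∈ U, ∀ v ∈ U, G.Adj u v → σ u * σ v = -1) :
    ∃ I : Finset V, I ⊆ U ∧ G.IsIndepSet (I : Set V) ∧ U.card ≤ 2 * I.card := by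
  have hc := Finset.card_filter_add_card_filter_not (s := U) (fun u => σ u = 1)
  have hP : G.IsIndepSet ((U.filter fun u => σ u = 1 : Finset V) : Set V) := by
    intro u hu v hv _ hadj
    rw [Finset.mem_coe, Finset.mem_filter] at hu hv
    have := h2 u hu.1 v hv.1 hadj
    rw [hu.2, hv.2] at this
    norm_num at this
  have hN : G.IsIndepSet ((U.filter fun u => ¬ σ u = 1 : Finset V) : Set V) := by
    intro u hu v hv _ hadj
    rw [Finset.mem_coe, Finset.mem_filter] at hu hv
    have := h2 u hu.1 v hv.1 hadj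
    rw [(h1 u hu.1).resolve_left hu.2, (h1 v hv.1).resolve_left hv.2] at this
    norm_num at this
  by_cases h : U.card ≤ 2 * (U.filter fun u => σ u = 1).card
  · exact ⟨_, Finset.filter_subset _ _, hP, h⟩
  · exact ⟨_, Finset.filter_subset _ _, hN, by omega⟩

open Classical in
theorem twoB_pick {V : Type} (V1 : Finset V) (y : V → X) (hy : ∀ u ∈ V1, y u ≠ 0)
    (hpm : ∀ (ψ : AddChar X ℂ) (a : X), ψ a = 1 ∨ ψ a = -1) :
    ∃ ψ : AddChar X ℂ, V1.card ≤ 2 * (V1.filter fun u => ψ (y u) = -1).card := by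
  have h1 : ∑ ψ : AddChar X ℂ, ∑ u ∈ V1, (ψ (y u)).re ≤ ∑ _ψ : AddChar X ℂ, (0 : ℝ) := by
    rw [Finset.sum_comm]
    simp only [Finset.sum_const_zero]
    refine le_of_eq (Finset.sum_eq_zero fun u hu => ?_)
    rw [← Complex.re_sum, AddChar.sum_apply_eq_ite, if_neg (hy u hu), Complex.zero_re]
  obtain ⟨ψ, _, hψ⟩ := Finset.exists_le_of_sum_le Finset.univ_nonempty h1
  refine ⟨ψ, ?_⟩
  have h2 : ∀ u ∈ V1, (ψ (y u)).re = 1 - 2 * (if ψ (y u) = -1 then (1 : ℝ) else 0) := by
    intro u _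
    by_cases h : ψ (y u) = -1
    · rw [if_pos h, h]
      norm_num
    · rw [if_neg h, (hpm ψ (y u)).resolve_right h]
      norm_num
  rw [Finset.sum_congr rfl h2, Finset.sum_sub_distrib, ← Finset.mul_sum, Finset.sum_boole] at hψ
  simp only [Finset.sum_const, nsmul_eq_mul, mul_one] at hψ
  have h3 : (V1.card : ℝ) ≤ 2 * ((V1.filter fun u => ψ (y u) = -1).card : ℝ) := by linarith
  exact_mod_cast h3

open Classical in
/-- For a character `χ` with `∑ χ = ∑ χ^2 = 0`, `Re (c χ(z)) < 0` for at least a quarter of the `z`. -/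
theorem quarter (χ : AddChar X ℂ) (h1 : ∑ z, χ z = 0) (h2 : ∑ z, χ z ^ 2 = 0) (c : ℂ) (hc : ‖c‖ = 1) :
    (Fintype.card X : ℝ) ≤ 4 * ((univ.filter fun z : X => (c * χ z).re < 0).card : ℝ) := by
  have hT : ∀ z ∈ (univ : Finset X), 1 / 4 + ((c * χ z) ^ 2).re / 4 - (c * χ z).re / 2 ≤
      if (c * χ z).re < 0 then (1 : ℝ) else 0 := by
    intro z _
    have hn : ‖c * χ z‖ = 1 := by rw [norm_mul, hc, χ.norm_apply, one_mul]
    generalize c * χ z = t at hn ⊢
    have h3 : t.re ^ 2 + t.im ^ 2 = 1 := by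
      have h4 := Complex.sq_norm t
      rw [hn, Complex.normSq_apply] at h4
      linarith
    have h5 : (t ^ 2).re = t.re ^ 2 - t.im ^ 2 := by
      rw [pow_two, Complex.mul_re]
      ring
    have h6 : -1 ≤ t.re ∧ t.re ≤ 1 := by constructor <;> nlinarith [sq_nonneg t.im]
    rw [h5]
    split_ifs with h
    · nlinarith [h6.1, h6.2]
    · push Not at h
      nlinarith [h6.1, h6.2]
  have hsum := Finset.sum_le_sum hT
  rw [Finset.sum_boole] at hsum
  have e2 : ∑ z : X, ((c * χ z) ^ 2).re = 0 := by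
    rw [← Complex.re_sum]
    have h3 : ∑ z : X, (c * χ z) ^ 2 = c ^ 2 * ∑ z, χ z ^ 2 := by
      rw [Finset.mul_sum]
      exact Finset.sum_congr rfl fun z _ => mul_pow _ _ _
    rw [h3, h2, mul_zero, Complex.zero_re]
  have e1 : ∑ z : X, (c * χ z).re = 0 := by
    rw [← Complex.re_sum, ← Finset.mul_sum, h1, mul_zero, Complex.zero_re]
  have e0 : ∑ _z : X, (1 / 4 : ℝ) = (Fintype.card X : ℝ) * (1 / 4) := by
    rw [Finset.sum_const, Finset.card_univ, nsmul_eq_mul]
  rw [Finset.sum_sub_distrib, Finset.sum_add_distrib, e0, ← Finset.sum_div, ← Finset.sum_div, e1, e2] at hsum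
  linarith

omit [Fintype X] in
/-- Absolute points are pairwise not adjacent. -/
theorem abs_indep (σ : X →+ X) (hσ : ∀ x, σ (σ x) = x) (b : X →+ X →+ X)
    (hb : ∀ x y, b x y = 0 → x = 0 ∨ y = 0) (G : SimpleGraph (X × X))
    (hG : ∀ u v, G.Adj u v → u.2 + σ v.2 = b u.1 v.1)
    (A : Finset (X × X)) (hA : ∀ u ∈ A, u.2 + σ u.2 = b u.1 u.1) : G.IsIndepSet (A : Set (X × X)) := by
  intro u hu v hv huv hadj
  have h1 := hA u (Finset.mem_coe.1 hu)
  have h2 := hA v (Finset.mem_coe.1 hv)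
  have h3 := hG u v hadj
  have h4 := hG v u hadj.symm
  have h5 : b (u.1 - v.1) (u.1 - v.1) = 0 := by
    rw [map_sub b, AddMonoidHom.sub_apply, map_sub, map_sub, ← h1, ← h2, ← h3, ← h4]
    abel
  have h6 : u.1 = v.1 := by
    rcases hb _ _ h5 with h | h <;> exact sub_eq_zero.1 h
  have h7 : σ v.2 = σ u.2 := by
    have h8 : u.2 + σ v.2 = u.2 + σ u.2 := by rw [h3, h1, h6]
    exact add_left_cancel h8
  have h9 : v.2 = u.2 := by rw [← hσ v.2, h7, hσ]
  exact huv (Prod.ext h6 h9.symm)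

open Classical in
/-- All nonempty fibres of a homomorphism have the same number of elements. -/
theorem fibre (f : X →+ X) {y : X} (hy : y ∈ f.range) :
    (univ.filter fun z => f z = y).card * Nat.card f.range = Fintype.card X := by
  obtain ⟨z0, rfl⟩ := hy
  have h1 : ∀ y' ∈ univ.image f, (univ.filter fun z => f z = y').card = (univ.filter fun z => f z = f z0).card := by
    intro y' hy'
    obtain ⟨z1, _, rfl⟩ := mem_image.1 hy'
    apply Finset.card_bij (fun z _ => z - z1 + z0)
    · intro z hz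
      rw [mem_filter] at hz ⊢
      refine ⟨mem_univ _, ?_⟩
      rw [map_add, map_sub, hz.2, sub_self, zero_add]
    · intro a _ c _ h
      exact sub_left_injective (add_right_cancel h)
    · intro a ha
      refine ⟨a - z0 + z1, ?_, by abel⟩
      rw [mem_filter] at ha ⊢
      refine ⟨mem_univ _, ?_⟩
      rw [map_add, map_sub, ha.2, sub_self, zero_add]
  have h2 := Finset.card_eq_sum_card_image f (univ : Finset X)
  rw [Finset.sum_congr rfl h1, Finset.sum_const, smul_eq_mul, card_univ] at h2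
  have h3 : Nat.card f.range = (univ.image f).card := by
    rw [Nat.card_eq_fintype_card, Fintype.card_subtype]
    congr 1
    ext x
    rw [mem_filter, mem_image, AddMonoidHom.mem_range]
    constructor
    · rintro ⟨_, y, hy⟩
      exact ⟨y, mem_univ _, hy⟩
    · rintro ⟨y, _, hy⟩
      exact ⟨mem_univ _, y, hy⟩
  rw [h3, h2, mul_comm]

open Classical in
theorem abs_card (f : X →+ X) (g : X → X) (P : Finset X) (h : ∀ x ∈ P, g x ∈ f.range) :
    ((P ×ˢ (univ : Finset X)).filter fun u => f u.2 = g u.1).card * Nat.card f.range = P.card * Fintype.card X := by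
  rw [Finset.card_filter, Finset.sum_product, Finset.sum_mul, ← smul_eq_mul (P.card), ← Finset.sum_const]
  refine Finset.sum_congr rfl fun x hx => ?_
  rw [← Finset.card_filter, fibre f (h x hx)]

/-- The subgroup of the elements fixed by `σ`. -/
def fix (σ : X →+ X) : AddSubgroup X where
  carrier := {x | σ x = x}
  zero_mem' := map_zero σ
  add_mem' := by
    intro a c ha hc
    show σ (a + c) = a + c
    rw [map_add, show σ a = a from ha, show σ c = c from hc]
  neg_mem' := by
    intro a ha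
    show σ (-a) = -a
    rw [map_neg, show σ a = a from ha]

omit [Fintype X] in
theorem range_le (σ : X →+ X) (hσ : ∀ x, σ (σ x) = x) : (AddMonoidHom.id X + σ).range ≤ fix σ := by
  rintro y ⟨x, rfl⟩
  show σ (x + σ x) = x + σ x
  rw [map_add, hσ, add_comm]

/-- The data of odd exponent: `Z` is the group of the elements fixed by `σ`, `π x = (x + σ x)/2`. -/
theorem mkDat [Nontrivial X] (σ : X →+ X) (hσ : ∀ x, σ (σ x) = x) (b : X →+ X →+ X) (hs : ∀ x y, b y x = σ (b x y))
    (hb : ∀ x y, b x y = 0 → x = 0 ∨ y = 0) [Fintype (fix σ)] :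
    (∀ x : X, 2 • x = 0) ∨ ∃ (D : Dat X (fix σ)) (π : X →+ fix σ), (∀ x y, D.b x y = π (b x y)) ∧
      (∀ x, π (σ x) = π x) ∧ Function.Surjective π ∧ (∀ x, b x x ∈ (AddMonoidHom.id X + σ).range) ∧
      ∀ x z, π z = D.F x → z + σ z = b x x := by
  classical
  set p := Nat.minFac (Fintype.card X) with hpdef
  have hcard : Fintype.card X ≠ 1 := by
    have := Fintype.one_lt_card (α := X)
    omega
  have hp : p.Prime := Nat.minFac_prime hcard
  have : Fact p.Prime := ⟨hp⟩
  obtain ⟨x, hx⟩ := exists_prime_addOrderOf_dvd_card (G := X) p (Nat.minFac_dvd _)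
  have hx0 : x ≠ 0 := by
    rintro rfl
    rw [addOrderOf_zero] at hx
    exact hp.one_lt.ne hx
  have hpx : p • x = 0 := by
    rw [← hx]
    exact addOrderOf_nsmul_eq_zero x
  have hexp : ∀ y : X, p • y = 0 := by
    intro y
    have h1 : b x (p • y) = 0 := by
      rw [map_nsmul, ← AddMonoidHom.nsmul_apply, ← map_nsmul, hpx, map_zero, AddMonoidHom.zero_apply]
    exact (hb _ _ h1).resolve_left hx0
  by_cases hp2 : p = 2
  · left
    intro y
    rw [← hp2]
    exact hexp y
  right
  obtain ⟨m, hm⟩ : ∃ m, Fintype.card X = p ^ m := by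
    let _ : Module (ZMod p) X := AddCommGroup.zmodModule hexp
    refine ⟨Module.finrank (ZMod p) X, ?_⟩
    have h := Module.card_eq_pow_finrank (K := ZMod p) (V := X)
    rw [ZMod.card] at h
    exact h
  have hodd : p % 2 = 1 := hp.eq_two_or_odd.resolve_left hp2
  have h2c : ∀ y : X, 2 • (((p + 1) / 2) • y) = y := by
    intro y
    rw [smul_smul, show 2 * ((p + 1) / 2) = p + 1 by omega, add_smul, one_smul, hexp, zero_add]
  have hexpZ : ∀ z : fix σ, p • z = 0 := fun z => Subtype.ext (hexp z)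
  have h2cZ : ∀ y : fix σ, 2 • (((p + 1) / 2) • y) = y := fun y => Subtype.ext (h2c y)
  let π : X →+ fix σ := AddMonoidHom.mk' (fun x => ⟨((p + 1) / 2) • (x + σ x), by
    show σ (((p + 1) / 2) • (x + σ x)) = ((p + 1) / 2) • (x + σ x)
    rw [map_nsmul, map_add, hσ, add_comm (σ x)]⟩) (by
    intro x y
    apply Subtype.ext
    show ((p + 1) / 2) • (x + y + σ (x + y)) = ((p + 1) / 2) • (x + σ x) + ((p + 1) / 2) • (y + σ y)
    rw [map_add, ← smul_add]
    congr 1
    abel)
  have hπ : ∀ x, ((π x : fix σ) : X) = ((p + 1) / 2) • (x + σ x) := fun x => rfl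
  have hπfix : ∀ x : X, σ x = x → ((π x : fix σ) : X) = x := by
    intro x hx
    rw [hπ, hx, ← two_nsmul, smul_comm, h2c]
  have hπσ : ∀ x, π (σ x) = π x := by
    intro x
    apply Subtype.ext
    rw [hπ, hπ, hσ, add_comm (σ x)]
  have hπs : Function.Surjective π := fun z => ⟨z, Subtype.ext (hπfix z z.2)⟩
  have hdiag : ∀ x, σ (b x x) = b x x := fun x => (hs x x).symm
  let b' : X →+ X →+ fix σ := (AddMonoidHom.compHom π).comp b
  have hb' : ∀ x y, b' x y = π (b x y) := fun x y => rfl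
  have hs' : ∀ x y, b' x y = b' y x := by
    intro x y
    rw [hb', hb', hs x y, hπσ]
  refine ⟨{ p := p, hp := hp, hodd := hp2, m := m, card_eq := hm, exp := hexp, expZ := hexpZ, b := b', symm := hs',
            surj := ?_, F := fun x => ((p + 1) / 2) • b' x x, F_add := ?_, F_nsmul := ?_, two_F := fun x => h2cZ _,
            F_zero := ?_ }, π, hb', hπσ, hπs, ?_, ?_⟩
  · intro x hx
    have hinj : Function.Injective (b x) := by
      rw [injective_iff_map_eq_zero]
      intro y hy
      exact (hb x y hy).resolve_left hx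
    have hsurj : Function.Surjective (b x) := Finite.surjective_of_injective hinj
    intro z
    obtain ⟨w, hw⟩ := hπs z
    obtain ⟨y, hy⟩ := hsurj w
    exact ⟨y, by rw [hb', hy, hw]⟩
  · intro x y
    have h1 : b' (x + y) (x + y) = b' x x + b' y y + 2 • b' x y := by
      rw [map_add b' x y, AddMonoidHom.add_apply, map_add, map_add, hs' y x]
      abel
    rw [h1, smul_add, smul_add, smul_comm, h2cZ]
  · intro n x
    have h1 : b' (n • x) (n • x) = (n ^ 2) • b' x x := by
      rw [map_nsmul b' n x, AddMonoidHom.nsmul_apply, map_nsmul, smul_smul, sq]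
    change ((p + 1) / 2) • b' (n • x) (n • x) = (n ^ 2) • (((p + 1) / 2) • b' x x)
    rw [h1, smul_comm]
  · intro x hx
    have h1 : b' x x = 0 := by
      rw [← h2cZ (b' x x), hx, smul_zero]
    have h2 : b x x = 0 := by
      rw [← hπfix _ (hdiag x), ← hb', h1]
      rfl
    rcases hb _ _ h2 with h | h <;> exact h
  · intro x
    refine ⟨((p + 1) / 2) • b x x, ?_⟩
    show ((p + 1) / 2) • b x x + σ (((p + 1) / 2) • b x x) = b x x
    rw [map_nsmul, hdiag, ← two_nsmul, h2c]
  · intro x z h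
    have h1 : 2 • π z = b' x x := by
      rw [h]
      exact h2cZ _
    have h2 := congrArg (fun y : fix σ => (y : X)) h1
    have h3 : 2 • (((p + 1) / 2) • (z + σ z)) = ((π (b x x) : fix σ) : X) := h2
    rwa [h2c, hπfix _ (hdiag x)] at h3

open Classical in
theorem Dat.odd (D : Dat X Z) (σ : X →+ X) (hσ : ∀ x, σ (σ x) = x) (b : X →+ X →+ X)
    (hb : ∀ x y, b x y = 0 → x = 0 ∨ y = 0) (π : X →+ Z) (hπb : ∀ x y, D.b x y = π (b x y))
    (hπσ : ∀ x, π (σ x) = π x) (hπs : Function.Surjective π)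
    (hr : Nat.card (AddMonoidHom.id X + σ).range ≤ Fintype.card Z)
    (hbr : ∀ x, b x x ∈ (AddMonoidHom.id X + σ).range)
    (G : SimpleGraph (X × X)) (hG : ∀ u v, G.Adj u v → u.2 + σ v.2 = b u.1 v.1) (P : Finset X) :
    ∃ I : Finset (X × X), I ⊆ P ×ˢ univ ∧ G.IsIndepSet (I : Set (X × X)) ∧
      (P.card * Fintype.card X : ℝ) ≤ 16 * Real.sqrt (Fintype.card X) * I.card := by
  obtain ⟨η, hη, hty⟩ := D.types
  have hq0 : (1 : ℝ) ≤ Fintype.card X := by exact_mod_cast (Fintype.card_pos : 0 < Fintype.card X)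
  have hs1 : (1 : ℝ) ≤ Real.sqrt (Fintype.card X) := by
    rw [Real.one_le_sqrt]
    exact hq0
  have hsq : Real.sqrt (Fintype.card X) * Real.sqrt (Fintype.card X) = Fintype.card X :=
    Real.mul_self_sqrt (by linarith)
  have hp2 : D.p % 2 = 1 := D.hp.eq_two_or_odd.resolve_left D.hodd
  by_cases hg : ∃ ψ : AddChar Z ℂ, ψ ≠ 1 ∧ D.Good ψ
  · obtain ⟨ψ, hψ, hgood⟩ := hg
    have h2y : ∀ y : Z, y + y = 0 → y = 0 := by
      intro y hy
      have h1 := D.expZ y
      obtain ⟨k, hk⟩ := D.hp.odd_of_ne_two D.hodd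
      rw [hk, add_nsmul, mul_nsmul, one_nsmul, two_nsmul, hy] at h1
      simpa using h1
    have hFneg : ∀ y : X, D.F (-y) = D.F y := by
      intro y
      have h1 := D.two_F y
      have h2 := D.two_F (-y)
      rw [D.symm, map_neg, D.symm, map_neg, neg_neg, ← h1, two_nsmul, two_nsmul] at h2
      have h3 : (D.F (-y) - D.F y) + (D.F (-y) - D.F y) = 0 := by
        rw [show (D.F (-y) - D.F y) + (D.F (-y) - D.F y) = (D.F (-y) + D.F (-y)) - (D.F y + D.F y) by abel, h2, sub_self]
      exact sub_eq_zero.1 (h2y _ h3)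
    have hGw : ∀ u v : X × X, G.Adj u v → (π u.2 - D.F u.1) + (π v.2 - D.F v.1) = -D.F (u.1 - v.1) := by
      intro u v huv
      have h1 : π u.2 + π v.2 = D.b u.1 v.1 := by
        rw [hπb, ← hG u v huv, map_add, hπσ]
      have h2 : D.F (u.1 - v.1) = D.F u.1 + D.F v.1 - D.b u.1 v.1 := by
        rw [sub_eq_add_neg, D.F_add, hFneg, map_neg]
        abel
      rw [h2, ← h1]
      abel
    obtain ⟨I, hIU, hI, hIc⟩ := D.geo hgood G (fun u : X × X => u.1) (fun u => π u.2 - D.F u.1) hGw (P ×ˢ univ)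
    refine ⟨I, hIU, hI, ?_⟩
    have hne : ∃ z, ψ z ≠ 1 := by
      by_contra hc
      push Not at hc
      exact hψ (by ext z; rw [hc z, AddChar.one_apply])
    have hdbl : ∀ k : ℕ, (∀ z : Z, ∃ y : Z, k • y = z) →
        ∑ z : X, (ψ.compAddMonoidHom (k • π)) z = 0 := by
      intro k hk
      refine AddChar.sum_eq_zero_of_ne_one fun h0 => ?_
      obtain ⟨z, hz⟩ := hne
      obtain ⟨y, hy⟩ := hk z
      obtain ⟨x, hx⟩ := hπs y
      apply hz
      have h1 : (ψ.compAddMonoidHom (k • π)) x = 1 := by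
        rw [h0]
        exact AddChar.one_apply _
      rw [AddChar.compAddMonoidHom_apply] at h1
      rw [← hy, ← hx]
      exact h1
    have hk2 : ∀ z : Z, ∃ y : Z, 2 • y = z := fun z => ⟨((D.p + 1) / 2) • z, by
      rw [smul_smul, show 2 * ((D.p + 1) / 2) = D.p + 1 by omega, add_smul, one_smul, D.expZ, zero_add]⟩
    have hk4 : ∀ z : Z, ∃ y : Z, 4 • y = z := fun z => by
      obtain ⟨y, hy⟩ := hk2 z
      obtain ⟨y', hy'⟩ := hk2 y
      exact ⟨y', by rw [show (4 : ℕ) = 2 * 2 by norm_num, mul_smul, hy', hy]⟩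
    have hcnt : (P.card * Fintype.card X : ℝ) ≤
        4 * (((P ×ˢ (univ : Finset X)).filter fun u => (ψ (2 • (π u.2 - D.F u.1))).re < 0).card : ℝ) := by
      rw [Finset.card_filter, Finset.sum_product]
      push_cast
      rw [Finset.mul_sum, ← nsmul_eq_mul, ← Finset.sum_const]
      refine Finset.sum_le_sum fun x _ => ?_
      have h2 : ∀ z : X, ψ (-(2 • D.F x)) * (ψ.compAddMonoidHom (2 • π)) z = ψ (2 • (π z - D.F x)) := by
        intro z
        rw [AddChar.compAddMonoidHom_apply, ← AddChar.map_add_eq_mul, AddMonoidHom.nsmul_apply, smul_sub]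
        congr 1
        abel
      have h1 : (Fintype.card X : ℝ) ≤
          4 * ((univ.filter fun z : X => (ψ (2 • (π z - D.F x))).re < 0).card : ℝ) := by
        have h3 := quarter (ψ.compAddMonoidHom (2 • π)) (hdbl 2 hk2) (by
          rw [← hdbl 4 hk4]
          refine Finset.sum_congr rfl fun z _ => ?_
          rw [AddChar.compAddMonoidHom_apply, AddChar.compAddMonoidHom_apply, ← AddChar.map_nsmul_eq_pow,
            AddMonoidHom.nsmul_apply, AddMonoidHom.nsmul_apply, smul_smul]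
          norm_num) (ψ (-(2 • D.F x))) (ψ.norm_apply _)
        rwa [Finset.filter_congr fun z _ => by rw [h2 z]] at h3
      rw [Finset.card_filter] at h1
      push_cast at h1
      exact h1
    linarith
  · push Not at hg
    have hS : ∀ ψ : AddChar Z ℂ, ψ ≠ 1 → D.S ψ = -(η * (Real.sqrt (Fintype.card X) : ℂ)) := by
      intro ψ hψ
      rcases hty ψ hψ with h | h
      · exact absurd h.2 (hg ψ hψ)
      · exact h
    have hF0 : D.F 0 = 0 := by
      have h := D.F_nsmul 0 (0 : X)
      rw [zero_smul, Nat.zero_pow (by norm_num), zero_smul] at h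
      exact h
    have hsum : ∑ ψ : AddChar Z ℂ, D.S ψ = (Fintype.card Z : ℂ) := by
      unfold Dat.S
      rw [Finset.sum_comm]
      simp only [AddChar.sum_apply_eq_ite]
      rw [Finset.sum_eq_single (0 : X)]
      · rw [hF0, if_pos rfl]
      · intro x _ hx
        rw [if_neg fun h => hx (D.F_zero x h)]
      · intro h
        exact absurd (mem_univ _) h
    have hsum2 : ∑ ψ : AddChar Z ℂ, D.S ψ =
        (Fintype.card X : ℂ) + ((Fintype.card Z : ℂ) - 1) * -(η * (Real.sqrt (Fintype.card X) : ℂ)) := by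
      rw [← Finset.add_sum_erase univ _ (Finset.mem_univ (1 : AddChar Z ℂ)),
        Finset.sum_congr rfl fun ψ hψ => hS ψ (Finset.ne_of_mem_erase hψ), Finset.sum_const,
        Finset.card_erase_of_mem (Finset.mem_univ _), Finset.card_univ, AddChar.card_eq, nsmul_eq_mul,
        Nat.cast_sub Fintype.card_pos]
      congr 1
      · unfold Dat.S
        simp
      · push_cast
        ring
    set s := Real.sqrt (Fintype.card X) with hsdef
    have hN1 : (1 : ℝ) ≤ Fintype.card Z := by exact_mod_cast (Fintype.card_pos : 0 < Fintype.card Z)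
    have hNq : (Fintype.card Z : ℝ) ≤ Fintype.card X := by
      exact_mod_cast Fintype.card_le_of_surjective _ hπs
    have hkey : (Fintype.card X : ℝ) - Fintype.card Z = (Fintype.card Z - 1) * s := by
      have h1 : ((Fintype.card X : ℂ) - (Fintype.card Z : ℂ)) = (((Fintype.card Z : ℂ) - 1) * (s : ℂ)) * η := by
        rw [hsum] at hsum2
        linear_combination (-1 : ℂ) * hsum2
      have h2 := congrArg norm h1
      rw [norm_mul, hη, mul_one] at h2
      have h3 : ((Fintype.card X : ℂ) - (Fintype.card Z : ℂ)) = (((Fintype.card X : ℝ) - (Fintype.card Z : ℝ) : ℝ) : ℂ) := by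
        push_cast
        rfl
      have h4 : (((Fintype.card Z : ℂ) - 1) * (s : ℂ)) = ((((Fintype.card Z : ℝ) - 1) * s : ℝ) : ℂ) := by
        push_cast
        rfl
      rw [h3, h4, Complex.norm_real, Complex.norm_real, Real.norm_eq_abs, Real.norm_eq_abs,
        abs_of_nonneg (by linarith), abs_of_nonneg (by nlinarith)] at h2
      exact h2
    have hsN : s = Fintype.card Z := by
      have h1 : (s - Fintype.card Z) * (s + 1) = 0 := by nlinarith
      rcases mul_eq_zero.1 h1 with h | h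
      · linarith
      · linarith
    refine ⟨(P ×ˢ (univ : Finset X)).filter fun u => (AddMonoidHom.id X + σ) u.2 = b u.1 u.1,
      Finset.filter_subset _ _, abs_indep σ hσ b hb G hG _ fun u hu => (Finset.mem_filter.1 hu).2, ?_⟩
    have hc := abs_card (AddMonoidHom.id X + σ) (fun x => b x x) P fun x _ => hbr x
    set N := ((P ×ˢ (univ : Finset X)).filter fun u => (AddMonoidHom.id X + σ) u.2 = b u.1 u.1).card with hN
    have h1 : (P.card : ℝ) * Fintype.card X = N * (Nat.card (AddMonoidHom.id X + σ).range : ℝ) := by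
      exact_mod_cast hc.symm
    have h2 : (Nat.card (AddMonoidHom.id X + σ).range : ℝ) ≤ s := by
      rw [hsN]
      exact_mod_cast hr
    rw [h1]
    have h3 : (0 : ℝ) ≤ N := Nat.cast_nonneg _
    nlinarith [mul_le_mul_of_nonneg_left h2 h3]

open Classical in
/-- Exponent 2: the vertices with `ψ(b x x) = -1`. -/
theorem twoV (b : X →+ X →+ Z) (hs : ∀ x y, b x y = b y x) (h2 : ∀ x : X, 2 • x = 0) (h2' : ∀ z : Z, 2 • z = 0)
    (ψ : AddChar Z ℂ) {V : Type} (G : SimpleGraph V) (x : V → X) (z : V → Z)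
    (hG : ∀ u v, G.Adj u v → b (x u) (x v) = z u + z v) (U : Finset V) (hU : ∀ u ∈ U, ψ (b (x u) (x u)) = -1) :
    ∃ I : Finset V, I ⊆ U ∧ G.IsIndepSet (I : Set V) ∧
      (U.card : ℝ) ≤ 4 * Real.sqrt (Fintype.card X) * I.card := by
  have hsq : ∀ (a : Z), ψ a * ψ a = 1 := fun a => iso2_sq h2' ψ a
  have hpm : ∀ (a : Z), ψ a = 1 ∨ ψ a = -1 := fun a => mul_self_eq_one_iff.1 (hsq a)
  have hq1 : (1 : ℝ) ≤ Fintype.card X := by
    have : 0 < Fintype.card X := Fintype.card_pos
    exact_mod_cast this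
  have hs1 : (1 : ℝ) ≤ Real.sqrt (Fintype.card X) := by
    rw [← Real.sqrt_one]
    exact Real.sqrt_le_sqrt hq1
  set s := Real.sqrt (Fintype.card X) with hsdef
  have hs2 : s ^ 2 = Fintype.card X := Real.sq_sqrt (by linarith)
  obtain ⟨W, hW1, hW2⟩ := iso2 b hs h2 h2' ψ
  obtain ⟨c, hcs⟩ := shift U x (univ.filter fun a => a ∈ W)
  set U' := U.filter fun u => x u - c ∈ univ.filter fun a => a ∈ W with hU'
  have hWc : (univ.filter fun a => a ∈ W).card = Nat.card W := by
    rw [Nat.card_eq_fintype_card, ← Fintype.card_subtype]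
  rw [hWc] at hcs
  have hmemU' : ∀ u ∈ U', ψ (b (x u) (x u)) = -1 ∧ x u - c ∈ W := by
    intro u hu
    rw [hU', Finset.mem_filter] at hu
    exact ⟨hU u hu.1, (Finset.mem_filter.1 hu.2).2⟩
  have hx : ∀ a a' : X, b (c + a) (c + a') = b c c + b c a' + b c a + b a a' := by
    intro a a'
    rw [map_add b c a, AddMonoidHom.add_apply, map_add, map_add, hs a c]
    abel
  have hexp : ∀ u v : V, ψ (b (x u) (x v)) =
      ψ (b c c) * ψ (b c (x v - c)) * ψ (b c (x u - c)) * ψ (b (x u - c) (x v - c)) := by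
    intro u v
    rw [← AddChar.map_add_eq_mul, ← AddChar.map_add_eq_mul, ← AddChar.map_add_eq_mul]
    have h := hx (x u - c) (x v - c)
    rw [add_sub_cancel, add_sub_cancel] at h
    rw [h]
  obtain ⟨I, hI0, hI1, hI2⟩ := twoB_half G U' (fun u => ψ (z u) * ψ (b c (x u - c))) (fun u _ => by
    rw [← AddChar.map_add_eq_mul]
    exact hpm _) (fun u hu v hv hadj => by
    have hu' := hmemU' u hu
    have hv' := hmemU' v hv
    have e1 := hexp u v
    rw [hG u v hadj, AddChar.map_add_eq_mul, hW1 _ hu'.2 _ hv'.2, mul_one] at e1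
    have e2 := hexp u u
    rw [hu'.1, hW1 _ hu'.2 _ hu'.2, mul_one, mul_assoc, hsq, mul_one] at e2
    have e3 := hsq (b c (x u - c))
    have e4 := hsq (b c (x v - c))
    calc ψ (z u) * ψ (b c (x u - c)) * (ψ (z v) * ψ (b c (x v - c)))
        = (ψ (z u) * ψ (z v)) * (ψ (b c (x u - c)) * ψ (b c (x v - c))) := by ring
      _ = (ψ (b c c) * ψ (b c (x v - c)) * ψ (b c (x u - c))) * (ψ (b c (x u - c)) * ψ (b c (x v - c))) := by rw [e1]
      _ = ψ (b c c) * (ψ (b c (x v - c)) * ψ (b c (x v - c))) * (ψ (b c (x u - c)) * ψ (b c (x u - c))) := by ring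
      _ = -1 := by rw [e3, e4, ← e2]; ring)
  refine ⟨I, hI0.trans (Finset.filter_subset _ _), hI1, ?_⟩
  have g2 : (U.card : ℝ) * (Nat.card W : ℝ) ≤ s ^ 2 * (U'.card : ℝ) := by
    rw [hs2]
    exact_mod_cast hcs
  have g3 : s ≤ 2 * (Nat.card W : ℝ) := by
    have h3 : s ^ 2 ≤ 2 * (Nat.card W : ℝ) ^ 2 := by
      rw [hs2]
      exact_mod_cast hW2
    nlinarith [Nat.cast_nonneg (α := ℝ) (Nat.card W)]
  have g4 : (U'.card : ℝ) ≤ 2 * (I.card : ℝ) := by exact_mod_cast hI2
  have g5 : (U.card : ℝ) ≤ 2 * s * (U'.card : ℝ) := by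
    have h0 : (0 : ℝ) ≤ U.card := Nat.cast_nonneg _
    have h3 : (U.card : ℝ) * s ≤ (2 * s * (U'.card : ℝ)) * s := by nlinarith
    exact le_of_mul_le_mul_right h3 (by linarith)
  have h0 : (0 : ℝ) ≤ I.card := Nat.cast_nonneg _
  nlinarith

open Classical in
theorem two (σ : X →+ X) (hσ : ∀ x, σ (σ x) = x) (b : X →+ X →+ X) (hs : ∀ x y, b y x = σ (b x y))
    (hb : ∀ x y, b x y = 0 → x = 0 ∨ y = 0) (h2 : ∀ x : X, 2 • x = 0)
    (G : SimpleGraph (X × X)) (hG : ∀ u v, G.Adj u v → u.2 + σ v.2 = b u.1 v.1) (P : Finset X) :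
    ∃ I : Finset (X × X), I ⊆ P ×ˢ univ ∧ G.IsIndepSet (I : Set (X × X)) ∧
      (P.card * Fintype.card X : ℝ) ≤ 16 * Real.sqrt (Fintype.card X) * I.card := by
  have hself : ∀ a : X, a + a = 0 := fun a => by rw [← two_nsmul]; exact h2 a
  have hq0 : (1 : ℝ) ≤ Fintype.card X := by exact_mod_cast (Fintype.card_pos : 0 < Fintype.card X)
  have hs1 : (1 : ℝ) ≤ Real.sqrt (Fintype.card X) := by
    rw [Real.one_le_sqrt]
    exact hq0
  have hsq : Real.sqrt (Fintype.card X) * Real.sqrt (Fintype.card X) = Fintype.card X :=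
    Real.mul_self_sqrt (by linarith)
  set s := Real.sqrt (Fintype.card X) with hsdef
  set f := AddMonoidHom.id X + σ with hf
  have hfa : ∀ a, f a = a + σ a := fun a => rfl
  have hff : ∀ a, f (f a) = 0 := by
    intro a
    rw [hfa, hfa, map_add, hσ, add_comm (σ a) a, hself]
  set R := f.range with hR
  have hr : (Nat.card R : ℝ) ≤ s := by
    have h1 := fibre f (zero_mem f.range)
    have h3 : Nat.card R ≤ (univ.filter fun z => f z = 0).card := by
      rw [Nat.card_eq_fintype_card, Fintype.card_subtype]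
      refine Finset.card_le_card fun y hy => ?_
      obtain ⟨a, rfl⟩ := (Finset.mem_filter.1 hy).2
      exact Finset.mem_filter.2 ⟨mem_univ _, hff a⟩
    have h4 : Nat.card R * Nat.card R ≤ Fintype.card X := by
      rw [← h1]
      exact Nat.mul_le_mul_right _ h3
    rw [hsdef]
    apply Real.le_sqrt_of_sq_le
    rw [pow_two]
    exact_mod_cast h4
  set P1 := P.filter fun x => b x x ∈ R with hP1
  set P2 := P.filter fun x => ¬ b x x ∈ R with hP2
  have hcard : P1.card + P2.card = P.card := Finset.card_filter_add_card_filter_not _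
  by_cases hcase : P.card ≤ 2 * P1.card
  · refine ⟨(P1 ×ˢ (univ : Finset X)).filter fun u => f u.2 = b u.1 u.1,
      (Finset.filter_subset _ _).trans (Finset.product_subset_product_left (Finset.filter_subset _ _)),
      abs_indep σ hσ b hb G hG _ fun u hu => (Finset.mem_filter.1 hu).2, ?_⟩
    have hc := abs_card f (fun x => b x x) P1 fun x hx => (Finset.mem_filter.1 hx).2
    set N := ((P1 ×ˢ (univ : Finset X)).filter fun u => f u.2 = b u.1 u.1).card with hN
    have h1 : (P1.card : ℝ) * Fintype.card X = N * (Nat.card R : ℝ) := by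
      exact_mod_cast hc.symm
    have h3 : (0 : ℝ) ≤ N := Nat.cast_nonneg _
    have h4 : (P.card : ℝ) ≤ 2 * P1.card := by exact_mod_cast hcase
    have h5 : (P.card : ℝ) * Fintype.card X ≤ 2 * (N * (Nat.card R : ℝ)) := by
      rw [← h1]
      nlinarith
    nlinarith [mul_le_mul_of_nonneg_left hr h3]
  · have : Fintype (X ⧸ R) := Fintype.ofFinite _
    let π : X →+ X ⧸ R := QuotientAddGroup.mk' R
    have hπ0 : ∀ a, π a = 0 ↔ a ∈ R := fun a => QuotientAddGroup.eq_zero_iff a
    have hπσ : ∀ a, π (σ a) = π a := by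
      intro a
      have h3 : π (σ a - a) = 0 := by
        rw [hπ0]
        refine ⟨a, ?_⟩
        rw [hfa]
        have h4 : a = -a := eq_neg_of_add_eq_zero_left (hself a)
        rw [sub_eq_add_neg, ← h4, add_comm]
      rw [map_sub] at h3
      exact sub_eq_zero.1 h3
    have h2' : ∀ z : X ⧸ R, 2 • z = 0 := by
      intro z
      obtain ⟨a, rfl⟩ := QuotientAddGroup.mk'_surjective R z
      rw [← map_nsmul, h2, map_zero]
    have hpm : ∀ (ψ : AddChar (X ⧸ R) ℂ) (a : X ⧸ R), ψ a = 1 ∨ ψ a = -1 := fun ψ a =>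
      mul_self_eq_one_iff.1 (iso2_sq h2' ψ a)
    obtain ⟨ψ, hψ⟩ := twoB_pick P2 (fun x => π (b x x)) (fun x hx h0 => by
      exact (Finset.mem_filter.1 hx).2 ((hπ0 _).1 h0)) hpm
    set P3 := P2.filter fun x => ψ (π (b x x)) = -1 with hP3
    let b' : X →+ X →+ X ⧸ R := (AddMonoidHom.compHom π).comp b
    have hb' : ∀ x y, b' x y = π (b x y) := fun x y => rfl
    have hs' : ∀ x y, b' x y = b' y x := by
      intro x y
      rw [hb', hb', hs x y, hπσ]
    obtain ⟨I, hI0, hI1, hI2⟩ := twoV b' hs' h2 h2' ψ G (fun u : X × X => u.1) (fun u => π u.2) (by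
      intro u v huv
      rw [hb', ← hG u v huv, map_add, hπσ]) (P3 ×ˢ univ) (by
      intro u hu
      exact (Finset.mem_filter.1 (Finset.mem_product.1 hu).1).2)
    refine ⟨I, hI0.trans (Finset.product_subset_product_left
      ((Finset.filter_subset _ _).trans (Finset.filter_subset _ _))), hI1, ?_⟩
    rw [Finset.card_product, Finset.card_univ] at hI2
    push_cast at hI2
    have h3 : (P.card : ℝ) ≤ 4 * P3.card := by
      have : P.card ≤ 4 * P3.card := by omega
      exact_mod_cast this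
    have h4 : (P.card : ℝ) * Fintype.card X ≤ 4 * P3.card * Fintype.card X :=
      mul_le_mul_of_nonneg_right h3 (by linarith)
    linarith

open Classical in
/-- The bound for an arbitrary polarity. -/
theorem main (σ : X →+ X) (hσ : ∀ x, σ (σ x) = x) (b : X →+ X →+ X) (hs : ∀ x y, b y x = σ (b x y))
    (hb : ∀ x y, b x y = 0 → x = 0 ∨ y = 0)
    (G : SimpleGraph (X × X)) (hG : ∀ u v, G.Adj u v → u.2 + σ v.2 = b u.1 v.1) (P : Finset X) :
    ∃ I : Finset (X × X), I ⊆ P ×ˢ univ ∧ G.IsIndepSet (I : Set (X × X)) ∧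
      (P.card * Fintype.card X : ℝ) ≤ 16 * Real.sqrt (Fintype.card X) * I.card := by
  rcases subsingleton_or_nontrivial X with hX | hX
  · refine ⟨P ×ˢ univ, Finset.Subset.refl _, fun u _ v _ huv => absurd (Subsingleton.elim _ _) huv, ?_⟩
    have h1 : Fintype.card X = 1 := Fintype.card_eq_one_iff.2 ⟨0, fun y => Subsingleton.elim _ _⟩
    rw [Finset.card_product, Finset.card_univ, h1]
    simp only [Nat.cast_one, Real.sqrt_one, mul_one]
    have h2 : (0 : ℝ) ≤ P.card := Nat.cast_nonneg _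
    linarith
  · have : Fintype (fix σ) := Fintype.ofFinite _
    rcases mkDat σ hσ b hs hb with h2 | ⟨D, π, hπb, hπσ, hπs, hbr, -⟩
    · exact two σ hσ b hs hb h2 G hG P
    · refine D.odd σ hσ b hb π hπb hπσ hπs ?_ hbr G hG P
      rw [← Nat.card_eq_fintype_card]
      exact Nat.card_le_card_of_injective _ (AddSubgroup.inclusion_injective (range_le σ hσ))

end Pool.Agent.C4g
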