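import Pool.Agent.C4g.Good
import Pool.Agent.C4f.Avg

/-!
# The bound for arbitrary sets of labels in odd order, and the three cases together
-/

namespace Pool.Agent.C4g

open Finset

variable {X Z : Type} [AddCommGroup X] [Fintype X] [AddCommGroup Z] [Fintype Z]

open Classical in
/-- `geo` for an arbitrary set `A`. -/
theorem Dat.geo2 (D : Dat X Z) {ψ : AddChar Z ℂ} (A : Finset X)
    (hA2 : ∀ a ∈ A, ∀ a' ∈ A, 0 ≤ (ψ (D.F (a - a'))).re) {V : Type} (G : SimpleGraph V) (x : V → X) (w : V → Z)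
    (hG : ∀ u v, G.Adj u v → w u + w v = -D.F (x u - x v)) (U : Finset V) :
    ∃ I : Finset V, I ⊆ U ∧ G.IsIndepSet (I : Set V) ∧
      (U.filter fun u => (ψ (2 • w u)).re < 0).card * A.card ≤ 2 * Fintype.card X * I.card := by
  set U0 := U.filter fun u => (ψ (2 • w u)).re < 0 with hU0
  have hre : ∀ u ∈ U0, (ψ (w u)).re ^ 2 < (ψ (w u)).im ^ 2 := by
    intro u hu
    have h := (Finset.mem_filter.1 hu).2
    rw [AddChar.map_nsmul_eq_pow, pow_two, Complex.mul_re] at h
    nlinarith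
  have key : ∀ s : ℝ, (∀ I : Finset V, (∀ u ∈ I, u ∈ U0 ∧ 0 < s * (ψ (w u)).im) →
      (∃ c : X, ∀ u ∈ I, x u - c ∈ A) → G.IsIndepSet (I : Set V)) := by
    intro s I hI hc u hu v hv _ hadj
    obtain ⟨c, hc⟩ := hc
    have hu' := hI u (Finset.mem_coe.1 hu)
    have hv' := hI v (Finset.mem_coe.1 hv)
    have h1 := hG u v hadj
    have h2 : 0 ≤ (ψ (D.F (x u - x v))).re := by
      have := hA2 _ (hc u (Finset.mem_coe.1 hu)) _ (hc v (Finset.mem_coe.1 hv))
      rwa [sub_sub_sub_cancel_right] at this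
    have h3 : ψ (w u) * ψ (w v) = (starRingEnd ℂ) (ψ (D.F (x u - x v))) := by
      rw [← AddChar.map_add_eq_mul, h1, AddChar.map_neg_eq_conj]
    have h4 : (ψ (w u) * ψ (w v)).re = (ψ (D.F (x u - x v))).re := by
      rw [h3, Complex.conj_re]
    rw [Complex.mul_re] at h4
    have h5 := hre u hu'.1
    have h6 := hre v hv'.1
    have h7 : 0 < (ψ (w u)).im * (ψ (w v)).im := by
      have h8 : 0 < (s * (ψ (w u)).im) * (s * (ψ (w v)).im) := mul_pos hu'.2 hv'.2
      have h9 : (s * (ψ (w u)).im) * (s * (ψ (w v)).im) = s ^ 2 * ((ψ (w u)).im * (ψ (w v)).im) := by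
        ring
      rw [h9] at h8
      exact pos_of_mul_pos_right h8 (sq_nonneg s)
    have h10 : ((ψ (w u)).re * (ψ (w v)).re) ^ 2 < ((ψ (w u)).im * (ψ (w v)).im) ^ 2 := by
      rw [mul_pow, mul_pow]
      have e1 : (0 : ℝ) ≤ (ψ (w u)).re ^ 2 := sq_nonneg _
      have e2 : (0 : ℝ) ≤ (ψ (w v)).re ^ 2 := sq_nonneg _
      nlinarith
    have h11 := abs_lt_of_sq_lt_sq h10 h7.le
    have h12 := (abs_lt.1 h11).2
    linarith
  have fin : ∀ U1 : Finset V, U0.card ≤ 2 * U1.card → (∃ s : ℝ, ∀ u ∈ U1, u ∈ U0 ∧ 0 < s * (ψ (w u)).im) →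
      ∃ I : Finset V, I ⊆ U ∧ G.IsIndepSet (I : Set V) ∧ U0.card * A.card ≤ 2 * Fintype.card X * I.card := by
    intro U1 hU1 hs
    obtain ⟨s, hs⟩ := hs
    obtain ⟨c, hc⟩ := shift U1 x A
    refine ⟨U1.filter fun u => x u - c ∈ A, ?_, ?_, ?_⟩
    · intro u hu
      exact (Finset.mem_filter.1 (hs u (Finset.mem_filter.1 hu).1).1).1
    · apply key s
      · intro u hu
        exact hs u (Finset.mem_filter.1 hu).1
      · exact ⟨c, fun u hu => (Finset.mem_filter.1 hu).2⟩
    · calc U0.card * A.card ≤ (2 * U1.card) * A.card := Nat.mul_le_mul_right _ hU1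
        _ = 2 * (U1.card * A.card) := by ring
        _ ≤ 2 * (Fintype.card X * (U1.filter fun u => x u - c ∈ A).card) := Nat.mul_le_mul_left _ hc
        _ = 2 * Fintype.card X * (U1.filter fun u => x u - c ∈ A).card := by ring
  have hcard := Finset.card_filter_add_card_filter_not (s := U0) (fun u => 0 < (ψ (w u)).im)
  by_cases hh : U0.card ≤ 2 * (U0.filter fun u => 0 < (ψ (w u)).im).card
  · apply fin _ hh
    refine ⟨1, ?_⟩
    intro u hu
    rw [one_mul]
    exact ⟨(Finset.mem_filter.1 hu).1, (Finset.mem_filter.1 hu).2⟩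
  · apply fin (U0.filter fun u => ¬ 0 < (ψ (w u)).im) (by omega)
    refine ⟨-1, ?_⟩
    intro u hu
    have h1 := (Finset.mem_filter.1 hu).1
    have h2 := (Finset.mem_filter.1 hu).2
    refine ⟨h1, ?_⟩
    have h3 := hre u h1
    have h4 : (ψ (w u)).im ≠ 0 := by
      intro h0
      rw [h0] at h3
      nlinarith [sq_nonneg (ψ (w u)).re]
    have h5 : (ψ (w u)).im < 0 := lt_of_le_of_ne (not_lt.1 h2) h4
    linarith

open Classical in
private theorem sum_re {g : Z} (hg : g ≠ 0) :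
    ∑ ψ ∈ univ.filter (fun ψ : AddChar Z ℂ => ψ ≠ 1), (ψ g).re = -1 := by
  have h1 : ∑ ψ : AddChar Z ℂ, ψ g = 0 := AddChar.sum_apply_eq_zero_iff_ne_zero.2 hg
  have h2 : ∑ ψ : AddChar Z ℂ, (ψ g).re = 0 := by
    rw [← Complex.re_sum, h1, Complex.zero_re]
  rw [Finset.filter_ne' univ (1 : AddChar Z ℂ)]
  have h3 := Finset.add_sum_erase univ (fun ψ : AddChar Z ℂ => (ψ g).re) (Finset.mem_univ 1)
  rw [h2] at h3
  have h4 : ((1 : AddChar Z ℂ) g).re = 1 := by simp
  simp only [h4] at h3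
  linarith

open Classical in
private theorem card_ne : ((univ.filter (fun ψ : AddChar Z ℂ => ψ ≠ 1)).card : ℝ) =
    (Fintype.card Z : ℝ) - 1 := by
  rw [Finset.filter_ne' univ (1 : AddChar Z ℂ), Finset.card_erase_of_mem (Finset.mem_univ _),
    Finset.card_univ, AddChar.card_eq, Nat.cast_sub Fintype.card_pos]
  norm_num

open Classical in
private theorem avg2 (h2 : ∀ z : Z, z + z = 0 → z = 0) {h : Z} (hh : h ≠ 0) :
    (Fintype.card Z : ℝ) / 4 ≤ ((univ.filter fun ψ : AddChar Z ℂ => ψ ≠ 1 ∧ (ψ h).re < 0).card : ℝ) := by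
  set P := univ.filter (fun ψ : AddChar Z ℂ => ψ ≠ 1) with hP
  have hh2 : (2 : ℕ) • h ≠ 0 := by
    intro h3
    rw [two_nsmul] at h3
    exact hh (h2 h h3)
  have hT : ∀ ψ ∈ P, 1 / 4 + (ψ ((2 : ℕ) • h)).re / 4 - (ψ h).re / 2 ≤
      if (ψ h).re < 0 then (1 : ℝ) else 0 := by
    intro ψ _
    have h1 : ‖ψ h‖ = 1 := ψ.norm_apply h
    have h3 : (ψ h).re ^ 2 + (ψ h).im ^ 2 = 1 := by
      have h4 := Complex.sq_norm (ψ h)
      rw [h1, Complex.normSq_apply] at h4
      linarith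
    have h5 : (ψ ((2 : ℕ) • h)).re = (ψ h).re ^ 2 - (ψ h).im ^ 2 := by
      rw [AddChar.map_nsmul_eq_pow, pow_two, Complex.mul_re]
      ring
    have h6 : -1 ≤ (ψ h).re ∧ (ψ h).re ≤ 1 := by constructor <;> nlinarith [sq_nonneg (ψ h).im]
    rw [h5]
    split_ifs with h7
    · nlinarith [h6.1, h6.2]
    · push Not at h7
      nlinarith [h6.1, h6.2]
  have hsum := Finset.sum_le_sum hT
  rw [Finset.sum_boole] at hsum
  have hfil : (P.filter fun ψ => (ψ h).re < 0) =
      univ.filter fun ψ : AddChar Z ℂ => ψ ≠ 1 ∧ (ψ h).re < 0 := by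
    rw [hP, Finset.filter_filter]
  rw [hfil] at hsum
  refine le_trans ?_ hsum
  have e0 : ∑ _ψ ∈ P, (1 / 4 : ℝ) = (P.card : ℝ) * (1 / 4) := by
    rw [Finset.sum_const, nsmul_eq_mul]
  rw [Finset.sum_sub_distrib, Finset.sum_add_distrib, e0, ← Finset.sum_div, ← Finset.sum_div, sum_re hh,
    sum_re hh2, card_ne]
  linarith

open Classical in
/-- Some `ψ ≠ 1` has `Re ψ(2 w u) < 0` for a quarter of the `u`. -/
theorem pick2 (h2 : ∀ z : Z, z + z = 0 → z = 0) {V : Type} (U : Finset V) (w : V → Z) (hw : ∀ u ∈ U, w u ≠ 0)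
    (hU : U.Nonempty) :
    ∃ ψ : AddChar Z ℂ, ψ ≠ 1 ∧ U.card ≤ 4 * (U.filter fun u => (ψ (2 • w u)).re < 0).card := by
  set P := univ.filter (fun ψ : AddChar Z ℂ => ψ ≠ 1) with hP
  by_contra hcon
  push Not at hcon
  have hcount : ∑ ψ ∈ P, ((U.filter fun u => (ψ (2 • w u)).re < 0).card : ℝ) =
      ∑ u ∈ U, ((univ.filter fun ψ : AddChar Z ℂ => ψ ≠ 1 ∧ (ψ (2 • w u)).re < 0).card : ℝ) := by
    have e1 : ∀ ψ ∈ P, ((U.filter fun u => (ψ (2 • w u)).re < 0).card : ℝ) =
        ∑ u ∈ U, if (ψ (2 • w u)).re < 0 then (1 : ℝ) else 0 := fun ψ _ => by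
      rw [Finset.sum_boole]
    rw [Finset.sum_congr rfl e1, Finset.sum_comm]
    refine Finset.sum_congr rfl fun u _ => ?_
    rw [Finset.sum_boole, hP, Finset.filter_filter]
  have hlow : (U.card : ℝ) * ((Fintype.card Z : ℝ) / 4) ≤
      ∑ u ∈ U, ((univ.filter fun ψ : AddChar Z ℂ => ψ ≠ 1 ∧ (ψ (2 • w u)).re < 0).card : ℝ) := by
    rw [← nsmul_eq_mul]
    refine Finset.card_nsmul_le_sum _ _ _ fun u hu => avg2 h2 fun h => hw u hu (h2 _ ?_)
    rwa [two_nsmul] at h
  have hup : 4 * ∑ ψ ∈ P, ((U.filter fun u => (ψ (2 • w u)).re < 0).card : ℝ) ≤ P.card * (U.card : ℝ) := by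
    rw [Finset.mul_sum, ← nsmul_eq_mul]
    refine Finset.sum_le_card_nsmul _ _ _ fun ψ hψ => ?_
    have := (hcon ψ (Finset.mem_filter.1 hψ).2).le
    exact_mod_cast this
  rw [hcount, card_ne] at hup
  have hUpos : 0 < (U.card : ℝ) := by exact_mod_cast hU.card_pos
  nlinarith

open Classical in
/-- Odd exponent, arbitrary labels. -/
theorem Dat.oddV (D : Dat X Z) (σ : X →+ X) (hσ : ∀ x, σ (σ x) = x) (b : X →+ X →+ X)
    (hb : ∀ x y, b x y = 0 → x = 0 ∨ y = 0) (π : X →+ Z) (hπb : ∀ x y, D.b x y = π (b x y))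
    (hπσ : ∀ x, π (σ x) = π x) (hπF : ∀ x z, π z = D.F x → z + σ z = b x x)
    {V : Type} [Fintype V] (G : SimpleGraph V) (x z : V → X)
    (hinj : Function.Injective fun v => (x v, z v)) (hG : ∀ u v, G.Adj u v → z u + σ (z v) = b (x u) (x v)) :
    ∃ I : Finset V, G.IsIndepSet (I : Set V) ∧
      (Fintype.card V : ℝ) ≤ 2100 * Real.sqrt (Fintype.card X) * I.card := by
  have hq0 : (1 : ℝ) ≤ Fintype.card X := by exact_mod_cast (Fintype.card_pos : 0 < Fintype.card X)
  have hs1 : (1 : ℝ) ≤ Real.sqrt (Fintype.card X) := by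
    rw [Real.one_le_sqrt]
    exact hq0
  have hsq : Real.sqrt (Fintype.card X) * Real.sqrt (Fintype.card X) = Fintype.card X :=
    Real.mul_self_sqrt (by linarith)
  set s := Real.sqrt (Fintype.card X) with hs
  set w : V → Z := fun u => π (z u) - D.F (x u) with hw
  have hGw : ∀ u v, G.Adj u v → w u + w v = -D.F (x u - x v) := by
    intro u v huv
    have h1 : π (z u) + π (z v) = D.b (x u) (x v) := by
      rw [hπb, ← hG u v huv, map_add, hπσ]
    have h2 : D.F (x u - x v) = D.F (x u) + D.F (x v) - D.b (x u) (x v) := by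
      rw [sub_eq_add_neg, D.F_add, D.F_neg, map_neg]
      abel
    rw [h2, ← h1, hw]
    simp only
    abel
  set U0 := univ.filter (fun u : V => w u = 0) with hU0
  set U1 := univ.filter (fun u : V => ¬ w u = 0) with hU1
  have hcard : U0.card + U1.card = Fintype.card V := by
    rw [hU0, hU1, Finset.card_filter_add_card_filter_not, Finset.card_univ]
  have hind0 : G.IsIndepSet (U0 : Set V) := by
    intro u hu v hv huv hadj
    have hu' : w u = 0 := (Finset.mem_filter.1 (Finset.mem_coe.1 hu)).2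
    have hv' : w v = 0 := (Finset.mem_filter.1 (Finset.mem_coe.1 hv)).2
    have h1 := hπF (x u) (z u) (sub_eq_zero.1 hu')
    have h2 := hπF (x v) (z v) (sub_eq_zero.1 hv')
    have h3 := hG u v hadj
    have h4 := hG v u hadj.symm
    have h5 : b (x u - x v) (x u - x v) = 0 := by
      rw [map_sub b, AddMonoidHom.sub_apply, map_sub, map_sub, ← h1, ← h2, ← h3, ← h4]
      abel
    have h6 : x u = x v := by
      rcases hb _ _ h5 with h | h <;> exact sub_eq_zero.1 h
    have h7 : σ (z v) = σ (z u) := by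
      have h8 : z u + σ (z v) = z u + σ (z u) := by rw [h3, h1, h6]
      exact add_left_cancel h8
    have h9 : z v = z u := by rw [← hσ (z v), h7, hσ]
    exact huv (hinj (Prod.ext h6 h9.symm))
  rcases U1.eq_empty_or_nonempty with he | hne
  · refine ⟨U0, hind0, ?_⟩
    have h1 : (Fintype.card V : ℝ) = U0.card := by
      rw [he, Finset.card_empty, add_zero] at hcard
      exact_mod_cast hcard.symm
    rw [h1]
    have h2 : (0 : ℝ) ≤ U0.card := Nat.cast_nonneg _
    have h3 : (1 : ℝ) ≤ 2100 * s := by linarith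
    calc (U0.card : ℝ) = 1 * U0.card := (one_mul _).symm
      _ ≤ 2100 * s * U0.card := mul_le_mul_of_nonneg_right h3 h2
  · obtain ⟨ψ, hψ, hc⟩ := pick2 D.two_zero U1 w (fun u hu => (Finset.mem_filter.1 hu).2) hne
    obtain ⟨A, hA1, hA2⟩ := D.good_all hψ
    obtain ⟨I, -, hI, hIc⟩ := D.geo2 A hA2 G x w hGw U1
    set N0 := (U1.filter fun u => (ψ (2 • w u)).re < 0).card with hN0
    have h1 : s ≤ 256 * A.card := by
      have h2 : (Fintype.card X : ℝ) ≤ (256 * A.card) ^ 2 := by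
        have h3 : Fintype.card X ≤ (256 * A.card) ^ 2 := by
          rw [mul_pow]
          exact hA1
        exact_mod_cast h3
      rw [hs]
      exact Real.sqrt_le_iff.2 ⟨by positivity, h2⟩
    have h2 : (N0 : ℝ) * A.card ≤ 2 * (s * s) * I.card := by
      rw [hsq]
      exact_mod_cast hIc
    have h3 : (N0 : ℝ) ≤ 512 * s * I.card := by
      have h4 : (N0 : ℝ) * s ≤ (512 * s * I.card) * s := by
        have h5 : (N0 : ℝ) * s ≤ N0 * (256 * A.card) := mul_le_mul_of_nonneg_left h1 (Nat.cast_nonneg _)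
        nlinarith
      exact le_of_mul_le_mul_right h4 (by linarith)
    have h4 : (U1.card : ℝ) ≤ 4 * N0 := by exact_mod_cast hc
    have h5 : (U1.card : ℝ) ≤ 2048 * s * I.card := by linarith
    have h6 : (Fintype.card V : ℝ) = U0.card + U1.card := by exact_mod_cast hcard.symm
    rcases le_total U0.card I.card with hle | hle
    · refine ⟨I, hI, ?_⟩
      have h7 : (U0.card : ℝ) ≤ I.card := by exact_mod_cast hle
      have h8 : (0 : ℝ) ≤ I.card := Nat.cast_nonneg _
      have h9 : (I.card : ℝ) ≤ s * I.card := by nlinarith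
      rw [h6]
      nlinarith
    · refine ⟨U0, hind0, ?_⟩
      have h7 : (I.card : ℝ) ≤ U0.card := by exact_mod_cast hle
      have h8 : (0 : ℝ) ≤ U0.card := Nat.cast_nonneg _
      have h9 : (U0.card : ℝ) ≤ s * U0.card := by nlinarith
      have h10 : s * I.card ≤ s * U0.card := mul_le_mul_of_nonneg_left h7 (by linarith)
      rw [h6]
      nlinarith

open Classical in
/-- The bound for full classes of labels, from `main`. -/
theorem fullV (σ : X →+ X) (hσ : ∀ x, σ (σ x) = x) (b : X →+ X →+ X) (hs : ∀ x y, b y x = σ (b x y))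
    (hb : ∀ x y, b x y = 0 → x = 0 ∨ y = 0) {V : Type} [Fintype V] (G : SimpleGraph V) (x z : V → X)
    (hinj : Function.Injective fun v => (x v, z v)) (hG : ∀ u v, G.Adj u v → z u + σ (z v) = b (x u) (x v))
    (hV : ∀ v t, ∃ v', x v' = x v ∧ z v' = t) :
    ∃ I : Finset V, G.IsIndepSet (I : Set V) ∧
      (Fintype.card V : ℝ) ≤ 16 * Real.sqrt (Fintype.card X) * I.card := by
  let e : V ↪ X × X := ⟨fun v => (x v, z v), hinj⟩
  have hG' : ∀ u v, (G.map e).Adj u v → u.2 + σ v.2 = b u.1 v.1 := by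
    rintro u v ⟨-, u', v', hadj, rfl, rfl⟩
    exact hG u' v' hadj
  obtain ⟨I, hI0, hI1, hI2⟩ := main σ hσ b hs hb (G.map e) hG' (univ.image x)
  have himg : (univ.image x) ×ˢ (univ : Finset X) = univ.map e := by
    ext ⟨a, t⟩
    rw [mem_product, mem_map]
    constructor
    · rintro ⟨h1, -⟩
      obtain ⟨v, -, hv⟩ := mem_image.1 h1
      obtain ⟨v', h2, h3⟩ := hV v t
      exact ⟨v', mem_univ _, Prod.ext (h2.trans hv) h3⟩
    · rintro ⟨v, -, hv⟩
      have h1 : x v = a := congrArg Prod.fst hv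
      exact ⟨mem_image.2 ⟨v, mem_univ _, h1⟩, mem_univ _⟩
  have hcV : (univ.image x).card * Fintype.card X = Fintype.card V := by
    have h1 := congrArg Finset.card himg
    rwa [card_product, card_map, card_univ, card_univ] at h1
  refine ⟨univ.filter fun v => e v ∈ I, ?_, ?_⟩
  · intro u hu v hv huv hadj
    have hu' := (Finset.mem_filter.1 (Finset.mem_coe.1 hu)).2
    have hv' := (Finset.mem_filter.1 (Finset.mem_coe.1 hv)).2
    exact hI1 (Finset.mem_coe.2 hu') (Finset.mem_coe.2 hv') (fun h => huv (e.injective h))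
      ((SimpleGraph.map_adj_apply).2 hadj)
  · have h1 : I = (univ.filter fun v => e v ∈ I).map e := by
      ext y
      rw [mem_map]
      constructor
      · intro hy
        have h2 := hI0 hy
        rw [himg, mem_map] at h2
        obtain ⟨v, -, hv⟩ := h2
        exact ⟨v, mem_filter.2 ⟨mem_univ _, by rw [hv]; exact hy⟩, hv⟩
      · rintro ⟨v, hv, rfl⟩
        exact (mem_filter.1 hv).2
    have h2 : (I.card : ℝ) = ((univ.filter fun v => e v ∈ I).card : ℝ) := by
      rw [h1, card_map]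
      simp only [mem_map' e, mem_filter, mem_univ, true_and]
    rw [← h2]
    have h3 : (Fintype.card V : ℝ) = (univ.image x).card * Fintype.card X := by
      rw [← hcV]
      push_cast
      rfl
    rw [h3]
    exact hI2

open Classical in
/-- The three cases. -/
theorem three (σ : X →+ X) (hσ : ∀ x, σ (σ x) = x) (b : X →+ X →+ X) (hs : ∀ x y, b y x = σ (b x y))
    (hb : ∀ x y, b x y = 0 → x = 0 ∨ y = 0) {V : Type} [Fintype V] (G : SimpleGraph V) (x z : V → X)
    (hinj : Function.Injective fun v => (x v, z v)) (hG : ∀ u v, G.Adj u v → z u + σ (z v) = b (x u) (x v))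
    (C : ℝ) (hC : (Odd (Fintype.card X) ∧ C = 2100) ∨ ((∀ a, σ a = a) ∧ C = 100) ∨
      ((∀ v t, ∃ v', x v' = x v ∧ z v' = t) ∧ C = 16)) :
    ∃ I : Finset V, G.IsIndepSet (I : Set V) ∧
      (Fintype.card V : ℝ) / (C * Real.sqrt (Fintype.card X)) ≤ I.card := by
  have hq0 : (1 : ℝ) ≤ Fintype.card X := by exact_mod_cast (Fintype.card_pos : 0 < Fintype.card X)
  have hs1 : (1 : ℝ) ≤ Real.sqrt (Fintype.card X) := by
    rw [Real.one_le_sqrt]
    exact hq0
  rcases hC with ⟨hodd, rfl⟩ | ⟨hid, rfl⟩ | ⟨hfull, rfl⟩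
  · rcases subsingleton_or_nontrivial X with hX | hX
    · refine ⟨univ, fun u _ v _ huv => absurd (hinj (Subsingleton.elim _ _)) huv, ?_⟩
      have h1 : Fintype.card X = 1 := Fintype.card_eq_one_iff.2 ⟨0, fun y => Subsingleton.elim _ _⟩
      rw [h1, Finset.card_univ]
      simp only [Nat.cast_one, Real.sqrt_one, mul_one]
      apply div_le_self (Nat.cast_nonneg _)
      norm_num
    · have : Fintype (fix σ) := Fintype.ofFinite _
      rcases mkDat σ hσ b hs hb with h2 | ⟨D, π, hπb, hπσ, -, -, hπF⟩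
      · exfalso
        obtain ⟨a, ha⟩ := exists_ne (0 : X)
        obtain ⟨k, hk⟩ := hodd
        have h3 : (Fintype.card X) • a = 0 := card_nsmul_eq_zero
        rw [hk, add_nsmul, mul_nsmul, one_nsmul, smul_comm, h2, zero_add] at h3
        exact ha h3
      · obtain ⟨I, hI, hc⟩ := D.oddV σ hσ b hb π hπb hπσ hπF G x z hinj hG
        refine ⟨I, hI, ?_⟩
        rw [div_le_iff₀ (by positivity), mul_comm]
        exact hc
  · exact C4f.partB b (fun x y => by rw [hs y x, hid]) hb G x z hinj (fun u v h => by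
      rw [← hG u v h, hid])
  · obtain ⟨I, hI, hc⟩ := fullV σ hσ b hs hb G x z hinj hG hfull
    refine ⟨I, hI, ?_⟩
    rw [div_le_iff₀ (by positivity), mul_comm]
    exact hc

end Pool.Agent.C4g
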